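import Pool.Agent.Helper18.CB.Win

/-!
# Project CB: the primes `n` such that `n - 1` is not smooth, all windows
-/

set_option autoImplicit false

open Finset Filter Topology MeasureTheory
open scoped ArithmeticFunction.vonMangoldt
open Pool.Agent.Helper18.BV (IsWt wt wt_nonneg)

namespace Pool.Agent.Helper18.CB

variable {ε l K : ℝ} {F : ℝ → ℝ}

/-- The nonsmooth part. -/
theorem bad_total (hF : Kern ε l K F) {z θ w B1 B2 : ℝ} (hz : 3 ≤ z) (hw : 0 ≤ w) {g : ℝ → ℝ}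
    (hg : IsWt g) (hg1 : ∀ v, g v ≤ 1) (N : ℕ) (A : ℕ → Finset ℕ) (t : ℕ → ℝ)
    (hdisj : ∀ i ∈ range N, ∀ j ∈ range N, i ≠ j → Disjoint (A i) (A j))
    (hA : ∀ i ∈ range N, ∀ n ∈ A i, n.Prime ∧ (n : ℝ) ≤ z ∧ |t i - lg z (n - 1)| ≤ 2 * w ∧
      ∃ q : ℕ, q.Prime ∧ z ^ θ < q ∧ q ∣ n - 1)
    (hB : ∀ S : Finset (ℕ × ℕ), (∀ s ∈ S, s.1.Prime ∧ (s.1 * s.2 + 1).Prime ∧ z ^ θ < s.1 ∧
      1 ≤ s.2 ∧ s.1 * s.2 + 1 ∈ (range N).biUnion A) →
      ∑ s ∈ S, (1 / ((s.1 * s.2 : ℕ) : ℝ)) * |DD F z s.2 ((lg z s.2 - lg z s.1) / 2)| ≤ B1 ∧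
      ∑ s ∈ S, (1 / ((s.1 * s.2 : ℕ) : ℝ)) * (s.2.divisors.card : ℝ) ≤ B2) :
    ∑ i ∈ range N, ∑ n ∈ A i, Λ n * wt g (z ^ t i) n * WW F z θ (t i) (n - 1) ≤
      Real.log z * (B1 + 2 * w * K * B2) := by
  classical
  have hL : 0 < Real.log z := Real.log_pos (by linarith)
  have hK := hF.K_nonneg
  set U := (range N).biUnion A with hU
  have hUp : ∀ n ∈ U, n.Prime ∧ (n : ℝ) ≤ z ∧ ∃ q : ℕ, q.Prime ∧ z ^ θ < q ∧ q ∣ n - 1 := by
    intro n hn
    obtain ⟨i, hi, hin⟩ := Finset.mem_biUnion.1 hn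
    obtain ⟨h1, h2, _, h3⟩ := hA i hi n hin
    exact ⟨h1, h2, h3⟩
  -- the choice of `q`
  have hch : ∀ n : ℕ, ∃ q : ℕ, n ∈ U → q.Prime ∧ z ^ θ < q ∧ q ∣ n - 1 := by
    intro n
    by_cases hn : n ∈ U
    · obtain ⟨_, _, q, hq⟩ := hUp n hn
      exact ⟨q, fun _ => hq⟩
    · exact ⟨0, fun h => absurd h hn⟩
  choose Q hQ using hch
  set f : ℕ → ℕ × ℕ := fun n => (Q n, (n - 1) / Q n) with hf
  have hfn : ∀ n ∈ U, Q n * ((n - 1) / Q n) + 1 = n ∧ 1 ≤ (n - 1) / Q n := by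
    intro n hn
    obtain ⟨h1, _, _⟩ := hUp n hn
    obtain ⟨h2, h3, h4⟩ := hQ n hn
    have h5 := Nat.mul_div_cancel' h4
    have h6 := h1.two_le
    refine ⟨by omega, Nat.div_pos (Nat.le_of_dvd (by omega) h4) h2.pos⟩
  have hinj : Set.InjOn f (U : Set ℕ) := by
    intro a ha b hb hab
    have h1 := (hfn a ha).1
    have h2 := (hfn b hb).1
    simp only [hf, Prod.mk.injEq] at hab
    rw [← h1, ← h2, hab.2, hab.1]
  set S := U.image f with hS
  have hSp : ∀ s ∈ S, s.1.Prime ∧ (s.1 * s.2 + 1).Prime ∧ z ^ θ < s.1 ∧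
      1 ≤ s.2 ∧ s.1 * s.2 + 1 ∈ U := by
    intro s hs
    obtain ⟨n, hn, rfl⟩ := Finset.mem_image.1 hs
    obtain ⟨h1, h2, h3⟩ := hQ n hn
    obtain ⟨h4, h5⟩ := hfn n hn
    simp only [hf]
    rw [h4]
    exact ⟨h1, (hUp n hn).1, h2, h5, hn⟩
  obtain ⟨hB1, hB2⟩ := hB S hSp
  set G : ℕ × ℕ → ℝ := fun s => Real.log z * ((1 / ((s.1 * s.2 : ℕ) : ℝ)) *
    |DD F z s.2 ((lg z s.2 - lg z s.1) / 2)| +
      2 * w * K * ((1 / ((s.1 * s.2 : ℕ) : ℝ)) * (s.2.divisors.card : ℝ))) with hG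
  have h1 : ∀ i ∈ range N, ∀ n ∈ A i, Λ n * wt g (z ^ t i) n * WW F z θ (t i) (n - 1) ≤
      G (f n) := by
    intro i hi n hn
    have hnU : n ∈ U := Finset.mem_biUnion.2 ⟨i, hi, hn⟩
    obtain ⟨hp, hnz, ht, _⟩ := hA i hi n hn
    obtain ⟨hq, hqz, _⟩ := hQ n hnU
    obtain ⟨hqr, hr⟩ := hfn n hnU
    set q := Q n with hqdef
    set r := (n - 1) / q with hrdef
    have hn1 : n - 1 = q * r := by omega
    have hr0 : r ≠ 0 := by omega
    have h2 := ww_le hF (z := z) (θ := θ) (t := t i) hq hqz hr0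
    rw [hn1]
    rw [hn1] at ht
    have hn2 : (2 : ℝ) ≤ n := by exact_mod_cast hp.two_le
    have hn0 : (0 : ℝ) < n := by linarith
    have hqr0 : (0 : ℝ) < ((q * r : ℕ) : ℝ) := by
      have : 0 < q * r := Nat.mul_pos hq.pos (by omega)
      exact_mod_cast this
    have hqrn : ((q * r : ℕ) : ℝ) ≤ n := by
      have : q * r ≤ n := by omega
      exact_mod_cast this
    have hc : Λ n * wt g (z ^ t i) n ≤ Real.log z * (1 / ((q * r : ℕ) : ℝ)) := by
      have h3 : Λ n ≤ Real.log z :=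
        (ArithmeticFunction.vonMangoldt_le_log (n := n)).trans (Real.log_le_log hn0 hnz)
      have h4 : wt g (z ^ t i) n ≤ 1 / ((q * r : ℕ) : ℝ) := by
        unfold wt
        exact div_le_div₀ zero_le_one (hg1 _) hqr0 hqrn
      exact mul_le_mul h3 h4 (wt_nonneg hg _ _) hL.le
    have hc0 : 0 ≤ Λ n * wt g (z ^ t i) n :=
      mul_nonneg ArithmeticFunction.vonMangoldt_nonneg (wt_nonneg hg _ _)
    set D := |DD F z r ((lg z r - lg z q) / 2)| with hD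
    have hD0 : 0 ≤ D := abs_nonneg _
    have h5 : WW F z θ (t i) (q * r) ≤ D + K * (2 * w) * r.divisors.card := by
      refine h2.trans ?_
      have := mul_le_mul_of_nonneg_right (mul_le_mul_of_nonneg_left ht hK)
        (Nat.cast_nonneg (r.divisors.card) : (0 : ℝ) ≤ _)
      linarith
    have h6 : 0 ≤ D + K * (2 * w) * r.divisors.card :=
      add_nonneg hD0 (mul_nonneg (mul_nonneg hK (by linarith)) (Nat.cast_nonneg _))
    calc Λ n * wt g (z ^ t i) n * WW F z θ (t i) (q * r) ≤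
          Λ n * wt g (z ^ t i) n * (D + K * (2 * w) * r.divisors.card) :=
          mul_le_mul_of_nonneg_left h5 hc0
      _ ≤ Real.log z * (1 / ((q * r : ℕ) : ℝ)) * (D + K * (2 * w) * r.divisors.card) :=
          mul_le_mul_of_nonneg_right hc h6
      _ = G (f n) := by
          change _ = Real.log z * ((1 / ((q * r : ℕ) : ℝ)) * D +
            2 * w * K * ((1 / ((q * r : ℕ) : ℝ)) * (r.divisors.card : ℝ)))
          ring
  calc ∑ i ∈ range N, ∑ n ∈ A i, Λ n * wt g (z ^ t i) n * WW F z θ (t i) (n - 1) ≤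
        ∑ i ∈ range N, ∑ n ∈ A i, G (f n) :=
        Finset.sum_le_sum fun i hi => Finset.sum_le_sum fun n hn => h1 i hi n hn
    _ = ∑ n ∈ U, G (f n) := by
        rw [hU, Finset.sum_biUnion]
        intro i hi j hj hij
        exact hdisj i (Finset.mem_coe.1 hi) j (Finset.mem_coe.1 hj) hij
    _ = ∑ s ∈ S, G s := by
        rw [hS, Finset.sum_image (fun a ha b hb h => hinj ha hb h)]
    _ = Real.log z * (∑ s ∈ S, (1 / ((s.1 * s.2 : ℕ) : ℝ)) *
          |DD F z s.2 ((lg z s.2 - lg z s.1) / 2)| + 2 * w * K *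
          ∑ s ∈ S, (1 / ((s.1 * s.2 : ℕ) : ℝ)) * (s.2.divisors.card : ℝ)) := by
        rw [hG, ← Finset.mul_sum, Finset.sum_add_distrib, ← Finset.mul_sum]
    _ ≤ Real.log z * (B1 + 2 * w * K * B2) := by
        apply mul_le_mul_of_nonneg_left _ hL.le
        have : 2 * w * K * ∑ s ∈ S, (1 / ((s.1 * s.2 : ℕ) : ℝ)) * (s.2.divisors.card : ℝ) ≤
            2 * w * K * B2 := mul_le_mul_of_nonneg_left hB2 (by positivity)
        linarith

/-- The smooth part. -/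
theorem smooth_total (hF : Kern ε l K F) (hε : 0 < ε) (hl : 0 < l) {z θ δ w C7 : ℝ} (hz : 3 ≤ z)
    (hδ : 0 < δ) (hdiv : ∀ n : ℕ, 0 < n → ((n.divisors.card : ℕ) : ℝ) ≤ C7 * (n : ℝ) ^ δ)
    {g : ℝ → ℝ} (hg : IsWt g) (hg1 : ∀ v, g v ≤ 1) (hσ : ∀ v, v ≤ 1 - w → g v = 0) (N : ℕ)
    (A : ℕ → Finset ℕ) (t : ℕ → ℝ) (P : Finset ℕ)
    (hA : ∀ i ∈ range N, 3 ≤ z ^ t i ∧ 1 - 2 * δ ≤ t i * (1 - w) ∧
      ∀ n ∈ A i, n ∈ P ∧ n.Prime ∧ (n : ℝ) ≤ z) :
    ∑ i ∈ range N, ∑ n ∈ A i, Λ n * wt g (z ^ t i) n * WW F z θ (t i) (n - 1) ≤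
      N * (P.card * (Real.log z * (1 / z ^ (1 - 2 * δ)) * (K * l * (C7 * z ^ δ)))) := by
  classical
  have hL : 0 < Real.log z := Real.log_pos (by linarith)
  have hz0 : 0 < z := by linarith
  have hK := hF.K_nonneg
  have hC7 : 0 ≤ C7 := by
    have h := hdiv 1 one_pos
    simp at h
    linarith
  have h1 : ∀ i ∈ range N, ∑ n ∈ A i, Λ n * wt g (z ^ t i) n * WW F z θ (t i) (n - 1) ≤
      P.card * (Real.log z * (1 / z ^ (1 - 2 * δ)) * (K * l * (C7 * z ^ δ))) := by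
    intro i hi
    obtain ⟨hx3, ht, hAi⟩ := hA i hi
    have h2 : ∀ n ∈ A i, Λ n * wt g (z ^ t i) n * WW F z θ (t i) (n - 1) ≤
        Real.log z * (1 / z ^ (1 - 2 * δ)) * (K * l * (C7 * z ^ δ)) := by
      intro n hn
      obtain ⟨_, hp, hnz⟩ := hAi n hn
      have hn2 : (2 : ℝ) ≤ n := by exact_mod_cast hp.two_le
      have hn0 : (0 : ℝ) < n := by linarith
      have h3 : Λ n ≤ Real.log z :=
        (ArithmeticFunction.vonMangoldt_le_log (n := n)).trans (Real.log_le_log hn0 hnz)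
      have h4 : wt g (z ^ t i) n ≤ 1 / z ^ (1 - 2 * δ) := by
        refine (CA.wt_le_of hg1 hσ hx3 n).trans ?_
        rw [← Real.rpow_mul hz0.le]
        apply one_div_le_one_div_of_le (by positivity)
        exact Real.rpow_le_rpow_of_exponent_le (by linarith) ht
      have h5 : WW F z θ (t i) (n - 1) ≤ K * l * (C7 * z ^ δ) := by
        refine (le_abs_self _).trans ((abs_ww_le hF hε z θ (t i) (n - 1)).trans ?_)
        apply mul_le_mul_of_nonneg_left _ (by positivity)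
        have h6 := hp.two_le
        refine (hdiv (n - 1) (by omega)).trans ?_
        apply mul_le_mul_of_nonneg_left _ hC7
        apply Real.rpow_le_rpow (Nat.cast_nonneg _) _ hδ.le
        have : ((n - 1 : ℕ) : ℝ) ≤ n := by exact_mod_cast Nat.sub_le n 1
        linarith
      have h6 : 0 ≤ Λ n * wt g (z ^ t i) n :=
        mul_nonneg ArithmeticFunction.vonMangoldt_nonneg (wt_nonneg hg _ _)
      calc Λ n * wt g (z ^ t i) n * WW F z θ (t i) (n - 1) ≤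
            Λ n * wt g (z ^ t i) n * (K * l * (C7 * z ^ δ)) := mul_le_mul_of_nonneg_left h5 h6
        _ ≤ Real.log z * (1 / z ^ (1 - 2 * δ)) * (K * l * (C7 * z ^ δ)) :=
          mul_le_mul_of_nonneg_right (mul_le_mul h3 h4 (wt_nonneg hg _ _) hL.le) (by positivity)
    refine (Finset.sum_le_card_nsmul _ _ _ h2).trans ?_
    rw [nsmul_eq_mul]
    apply mul_le_mul_of_nonneg_right _ (by positivity)
    have : (A i).card ≤ P.card := Finset.card_le_card fun n hn => (hAi n hn).1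
    exact_mod_cast this
  refine (Finset.sum_le_sum h1).trans (le_of_eq ?_)
  rw [Finset.sum_const, Finset.card_range, nsmul_eq_mul]

end Pool.Agent.Helper18.CB
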