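import Pool.Agent.Helper18.CB.Main
import Pool.Agent.Helper96.SP.Bump
import Pool.Agent.Helper96.SP.FT
import Pool.Agent.Helper96.SP.Planch
import Pool.Agent.Helper96.SP.TwM
import Pool.Agent.Helper96.SP.Euler
import Pool.Agent.Helper96.SP.L2
import Pool.Agent.Helper96.SP.Pair
import Pool.Agent.Helper96.SP.Bad

/-!
# Projects SP and CB: smooth shifted primes for every `θ > exp(-1/2)/2`, closed form
-/

set_option autoImplicit false

namespace Pool.Agent.Helper18.CB

theorem badSum : Helper96.SP.BadSum :=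
  Helper96.SP.badSum Helper96.SP.bump
    (Helper96.SP.l2Main Helper96.SP.ftBound Helper96.SP.planch
      (Helper96.SP.euler Helper96.SP.twM)) Helper96.SP.pairS (Helper96.SP.euler Helper96.SP.twM)

/-- For every `θ > exp(-1/2)/2 = 0.30326...` there are `z ^ (1 - o(1))` primes `p ≤ z` such that
`p - 1` is `z ^ θ`-smooth. -/
theorem smooth_half (θ : ℝ) (h0 : Real.exp (-(1 / 2)) / 2 < θ) (hθ : θ < 1 / 2) :
    Helper34.CA.Smooth θ :=
  m10' Helper96.SP.bump badSum θ h0 hθ

end Pool.Agent.Helper18.CB
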