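import Pool.Agent.Helper18.CA.Main

/-!
# Project CB (MP_87fff7_nt): smooth shifted primes beyond `1 / (2 √e)`, definitions

`|m| = log m / log z`. `F` is a kernel on the positive reals, `Fo F` its odd extension and
`DD F z r b = ∑_{k ∣ r} Fo F (|k| - b)`.
-/

set_option autoImplicit false

open Finset Filter Topology MeasureTheory

namespace Pool.Agent.Helper18.CB

/-- `|m| = log m / log z`. -/
noncomputable def lg (z : ℝ) (m : ℕ) : ℝ := Real.log m / Real.log z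

/-- The odd extension of a kernel. -/
noncomputable def Fo (F : ℝ → ℝ) (x : ℝ) : ℝ := F x - F (-x)

/-- The divisor sum attached to the kernel. -/
noncomputable def DD (F : ℝ → ℝ) (z : ℝ) (r : ℕ) (b : ℝ) : ℝ :=
  ∑ k ∈ r.divisors, Fo F (lg z k - b)

/-- Kernels: nonnegative, Lipschitz, supported in `[ε, l]`, of mass one. -/
structure Kern (ε l K : ℝ) (F : ℝ → ℝ) : Prop where
  nonneg : ∀ y, 0 ≤ F y
  supp : ∀ y, F y ≠ 0 → ε ≤ y ∧ y ≤ l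
  lip : ∀ x y, |F x - F y| ≤ K * |x - y|
  mass : ∫ y, F y = 1

/-- The key estimate: the pairs `(q, r)` with `q > z ^ θ` and `q r + 1` prime. -/
def BadP (θ : ℝ) : Prop :=
  ∀ δ ρ l : ℝ, 0 < δ → δ ≤ 1 / 10 → 0 < ρ → 0 < l → l ≤ 1 / 10 →
    ∃ (ε K : ℝ) (F : ℝ → ℝ), 0 < ε ∧ 0 < K ∧ Kern ε l K F ∧
      ∃ z0 : ℝ, 3 ≤ z0 ∧ ∀ z : ℝ, z0 ≤ z → ∀ S : Finset (ℕ × ℕ),
        (∀ s ∈ S, s.1.Prime ∧ z ^ θ < s.1 ∧ (s.1 * s.2 + 1).Prime ∧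
          z ^ (1 - δ) < ((s.1 * s.2 + 1 : ℕ) : ℝ) ∧ ((s.1 * s.2 + 1 : ℕ) : ℝ) ≤ z) →
        ∑ s ∈ S, (1 / ((s.1 : ℝ) * s.2)) * |DD F z s.2 ((lg z s.2 - lg z s.1) / 2)| ≤
          ρ * Real.log z

end Pool.Agent.Helper18.CB
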