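import Pool.Agent.Helper18.CB.BadTotal
import Pool.Agent.Helper96.SP.St

/-!
# Project CB, module m10: smooth shifted primes for every `θ > exp(-1/2)/2`
-/

set_option autoImplicit false

open Finset Filter Topology MeasureTheory
open scoped ArithmeticFunction.vonMangoldt
open Pool.Agent.Helper18.CA (PhiSum BVhalf)
open Pool.Agent.Helper18.BV (IsWt wt wt_nonneg)

namespace Pool.Agent.Helper18.CB

variable {ε l K : ℝ} {F : ℝ → ℝ}

theorem kern_FF (hB : Helper96.SP.Bump) {J : ℕ} (hJ : 1 ≤ J) :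
    ∃ K : ℝ, 0 < K ∧ Kern ((1 / 2 : ℝ) ^ (5 + J)) (1 / 16) K (Helper96.SP.FF 5 J) := by
  obtain ⟨K, hK, hlip⟩ := hB.lip 5 J
  refine ⟨K, hK, hB.nonneg 5 J, ?_, hlip, hB.int 5 J hJ⟩
  intro y hy
  obtain ⟨h1, h2⟩ := hB.supp 5 J y hy
  refine ⟨h1.le, ?_⟩
  norm_num at h2
  linarith

/-- Finding `J`. -/
theorem exists_J {a δ ρ : ℝ} (ha : 0 < a) (hδ : 0 < δ) (hρ : 0 < ρ) :
    ∃ J : ℕ, 5 ≤ J ∧ a * Real.sqrt (2 * δ / J) ≤ ρ := by
  obtain ⟨J, hJ⟩ := exists_nat_ge (2 * δ * (a / ρ) ^ 2)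
  refine ⟨max 5 J, le_max_left _ _, ?_⟩
  have hJ0 : (0 : ℝ) < ((max 5 J : ℕ) : ℝ) := by
    have : 0 < max 5 J := by omega
    exact_mod_cast this
  have hJ1 : 2 * δ * (a / ρ) ^ 2 ≤ ((max 5 J : ℕ) : ℝ) :=
    hJ.trans (by exact_mod_cast le_max_right _ _)
  have h1 : Real.sqrt (2 * δ / ((max 5 J : ℕ) : ℝ)) ≤ ρ / a := by
    rw [Real.sqrt_le_left (by positivity), div_le_iff₀ hJ0]
    calc 2 * δ = (ρ / a) ^ 2 * (2 * δ * (a / ρ) ^ 2) := by field_simp
      _ ≤ (ρ / a) ^ 2 * ((max 5 J : ℕ) : ℝ) := mul_le_mul_of_nonneg_left hJ1 (by positivity)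
  calc a * Real.sqrt (2 * δ / ((max 5 J : ℕ) : ℝ)) ≤ a * (ρ / a) :=
        mul_le_mul_of_nonneg_left h1 ha.le
    _ = ρ := by field_simp

/-- m10. -/
theorem m10_aux {c0 C : ℝ} (hΦ : PhiSum c0 C) (hG : Helper34.CA.GoodWt) (hBV : BVhalf)
    (hB : Helper96.SP.Bump) (hBad : Helper96.SP.BadSum) {θ : ℝ} (hθ0 : 0 < θ) (hθ : θ < 1 / 2)
    (hlam : Real.log (1 / (2 * θ)) < 1 / 2) : Helper34.CA.Smooth θ := by
  classical
  intro η hη
  obtain ⟨C1, hC1, hbad⟩ := hBad
  have hc0 : 0 < c0 := hΦ.1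
  set σ : ℝ := 1 - 2 * Real.log (1 / (2 * θ)) with hσdef
  have hσ0 : 0 < σ := by rw [hσdef]; linarith
  set δ : ℝ := min (η / 8) (1 / 40) with hδdef
  have hδ0 : 0 < δ := by positivity
  have hδη : δ ≤ η / 8 := min_le_left _ _
  have hδ1 : δ ≤ 1 / 40 := min_le_right _ _
  set m : ℝ := c0 * σ * δ with hm
  have hm0 : 0 < m := by positivity
  obtain ⟨J, hJ5, hJ⟩ := exists_J (a := C1 / θ ^ 2) (δ := δ) (ρ := m / 100) (by positivity) hδ0
    (by positivity)
  obtain ⟨K, hK, hF⟩ := kern_FF hB (J := J) (by omega)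
  set F := Helper96.SP.FF 5 J with hFdef
  set ε : ℝ := (1 / 2 : ℝ) ^ (5 + J) with hεdef
  have hε0 : 0 < ε := by positivity
  have hε1 : ε ≤ 1 / 4 := by
    rw [hεdef]
    calc (1 / 2 : ℝ) ^ (5 + J) ≤ (1 / 2 : ℝ) ^ 2 :=
          pow_le_pow_of_le_one (by norm_num) (by norm_num) (by omega)
      _ = 1 / 4 := by norm_num
  set w : ℝ := min (min ε (δ / 4)) (m / 100 * θ ^ 2 / (4 * K * C1 * δ)) with hwdef
  have hw0 : 0 < w := by positivity
  have hwε : w ≤ ε := (min_le_left _ _).trans (min_le_left _ _)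
  have hwδ : w ≤ δ / 4 := (min_le_left _ _).trans (min_le_right _ _)
  have hwK : 2 * w * K * (C1 / θ ^ 2 * (2 * δ)) ≤ m / 100 := by
    have h1 : w ≤ m / 100 * θ ^ 2 / (4 * K * C1 * δ) := min_le_right _ _
    rw [le_div_iff₀ (by positivity)] at h1
    calc 2 * w * K * (C1 / θ ^ 2 * (2 * δ)) = w * (4 * K * C1 * δ) / θ ^ 2 := by ring
      _ ≤ m / 100 * θ ^ 2 / θ ^ 2 := div_le_div_of_nonneg_right h1 (by positivity)
      _ = m / 100 := by field_simp
  have hw4 : w ≤ 1 / 4 := hwε.trans hε1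
  obtain ⟨g, hgS, hg1, X0, hX0, hmass⟩ := hG w (1 / 2) hw0 hw4 (by norm_num) (by norm_num)
  have hg : IsWt g := hgS.isWt (by linarith)
  have hσ : ∀ v, v ≤ 1 - w → g v = 0 := by
    intro v hv
    by_contra hne
    exact absurd (hgS.supp (subset_tsupport g (Function.mem_support.2 hne))).1 (not_lt.2 hv)
  obtain ⟨z1, hz1, hwin⟩ := win hΦ hBV hθ0 hθ hlam hF hε0 hε1 (by norm_num) (by norm_num)
    (ρ := σ / 2) (by positivity) (by linarith) hg hg1 hw0 hwε hσ (X3 := X0)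
    (fun x hx => by
      have := hmass x hx
      norm_num at this ⊢
      linarith)
  obtain ⟨z2, hz2, hbadz⟩ := hbad θ (2 * δ) hθ0 (by linarith) (by linarith) (by linarith) 5 J
    (by omega) hJ5
  obtain ⟨C7, hC7, hdiv⟩ := Helper89.SLE.divisor_bound δ hδ0
  set N : ℕ := ⌊δ / w⌋₊ with hN
  have hNw : (N : ℝ) * w ≤ δ := by
    have h1 : (N : ℝ) ≤ δ / w := Nat.floor_le (by positivity)
    rwa [le_div_iff₀ hw0] at h1
  have hNw' : 3 / 4 * δ ≤ N * w := by
    have h1 : δ / w < N + 1 := Nat.lt_floor_add_one _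
    rw [div_lt_iff₀ hw0] at h1
    linarith
  -- the bounds for `z`
  have hev : ∀ᶠ z : ℝ in atTop, z1 ≤ z ∧ z2 ≤ z ∧ (1 ≤ Real.log z ∧
      8 * (N + 1) / m ≤ Real.log z ∧ Real.log 2 / w ≤ Real.log z) ∧ 2 ≤ z ^ δ ∧
      3 ≤ z ^ (9 / 10 : ℝ) ∧ N * (K * (1 / 16) * C7) * Real.log z ≤ z ^ δ := by
    have e6 : ∀ᶠ z : ℝ in atTop, N * (K * (1 / 16) * C7) * Real.log z ≤ z ^ δ := by
      have h := isLittleO_log_rpow_atTop hδ0
      have hc : 0 < N * (K * (1 / 16) * C7) + 1 := by positivity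
      have h' := h.bound (by positivity : (0 : ℝ) < 1 / (N * (K * (1 / 16) * C7) + 1))
      filter_upwards [h', Filter.eventually_ge_atTop (1 : ℝ)] with x hx hx1
      have hlx : 0 ≤ Real.log x := Real.log_nonneg hx1
      rw [Real.norm_of_nonneg hlx, Real.norm_of_nonneg (Real.rpow_nonneg (by linarith) _),
        one_div, inv_mul_eq_div, le_div_iff₀ hc] at hx
      linarith
    filter_upwards [eventually_ge_atTop z1, eventually_ge_atTop z2,
      Real.tendsto_log_atTop.eventually_ge_atTop 1,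
      Real.tendsto_log_atTop.eventually_ge_atTop (8 * (N + 1) / m),
      Real.tendsto_log_atTop.eventually_ge_atTop (Real.log 2 / w),
      (tendsto_rpow_atTop hδ0).eventually_ge_atTop 2,
      (tendsto_rpow_atTop (by norm_num : (0 : ℝ) < 9 / 10)).eventually_ge_atTop 3, e6]
      with z h1 h2 h3 h4 h5 h6 h7 h8
    exact ⟨h1, h2, ⟨h3, h4, h5⟩, h6, h7, h8⟩
  obtain ⟨z0, hz0⟩ := Filter.eventually_atTop.1 hev
  refine ⟨z0, ?_⟩
  intro z hz P hP
  obtain ⟨hzz1, hzz2, ⟨hL1, hLm, hLw⟩, hzδ, hz9, hzK⟩ := hz0 z hz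
  have hz3 : 3 ≤ z := hz1.trans hzz1
  have hzp : 0 < z := by linarith
  have hz1' : 1 ≤ z := by linarith
  set L := Real.log z with hL
  have hL0 : 0 < L := by linarith
  -- the windows
  set t : ℕ → ℝ := fun i => 1 - i * w with ht
  have ht1 : ∀ i, t i ≤ 1 := by
    intro i
    simp only [ht]
    have : 0 ≤ (i : ℝ) * w := by positivity
    linarith
  have ht0 : ∀ i ∈ range N, 1 - δ + w ≤ t i := by
    intro i hi
    rw [Finset.mem_range] at hi
    have h1 : (i : ℝ) + 1 ≤ N := by exact_mod_cast hi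
    simp only [ht]
    nlinarith
  have htw : ∀ i ∈ range N, 1 - δ ≤ t i * (1 - w) := by
    intro i hi
    have h1 := ht0 i hi
    have h2 : (1 - δ + w) * (1 - w) ≤ t i * (1 - w) :=
      mul_le_mul_of_nonneg_right h1 (by linarith)
    have h3 : 0 ≤ w * (δ - w) := mul_nonneg hw0.le (by linarith)
    nlinarith
  set Sm : ℕ → Prop := fun n => ∀ q : ℕ, q.Prime → q ∣ n - 1 → (q : ℝ) ≤ z ^ θ with hSm
  set W : ℕ → Finset ℕ := fun i => ((Icc 1 ⌊z ^ t i⌋₊).filter (fun n => n.Prime)).filter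
    (fun n => z ^ (t i * (1 - w)) < (n : ℝ)) with hW
  set A : ℕ → Finset ℕ := fun i => (W i).filter (fun n => ¬ Sm n) with hA
  set B : ℕ → Finset ℕ := fun i => (W i).filter (fun n => Sm n) with hBdef
  have hWm : ∀ i, ∀ n ∈ W i, n.Prime ∧ z ^ (t i * (1 - w)) < (n : ℝ) ∧ (n : ℝ) ≤ z ^ t i := by
    intro i n hn
    simp only [hW, Finset.mem_filter, Finset.mem_Icc] at hn
    refine ⟨hn.1.2, hn.2, (Nat.cast_le.2 hn.1.1.2).trans (Nat.floor_le (by positivity))⟩
  have hWz : ∀ i, ∀ n ∈ W i, (n : ℝ) ≤ z := by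
    intro i n hn
    refine (hWm i n hn).2.2.trans ?_
    calc z ^ t i ≤ z ^ (1 : ℝ) := Real.rpow_le_rpow_of_exponent_le hz1' (ht1 i)
      _ = z := Real.rpow_one z
  have hWl : ∀ i ∈ range N, ∀ n ∈ W i, z ^ (1 - δ) < (n : ℝ) := by
    intro i hi n hn
    exact lt_of_le_of_lt (Real.rpow_le_rpow_of_exponent_le hz1' (htw i hi)) (hWm i n hn).2.1
  set f : ℕ → ℕ → ℝ := fun i n => Λ n * wt g (z ^ t i) n * WW F z θ (t i) (n - 1) with hf
  have hx3 : ∀ i ∈ range N, 3 ≤ z ^ t i := by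
    intro i hi
    refine hz9.trans (Real.rpow_le_rpow_of_exponent_le hz1' ?_)
    have := ht0 i hi
    linarith
  have hsplit : ∀ i ∈ range N, ∑ n ∈ (Icc 1 ⌊z ^ t i⌋₊).filter (fun n => n.Prime), f i n =
      ∑ n ∈ A i, f i n + ∑ n ∈ B i, f i n := by
    intro i hi
    have h1 : ∑ n ∈ W i, f i n =
        ∑ n ∈ (Icc 1 ⌊z ^ t i⌋₊).filter (fun n => n.Prime), f i n := by
      apply Finset.sum_filter_of_ne
      intro n _ hne
      by_contra hcon
      apply hne
      simp only [hf]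
      rw [CA.wt_zero_of hσ (hx3 i hi) (n := n), mul_zero, zero_mul]
      rw [← Real.rpow_mul hzp.le]
      exact not_lt.1 hcon
    rw [← h1, ← Finset.sum_filter_add_sum_filter_not (W i) Sm, add_comm]
  -- lower bound
  have hlow : (N : ℝ) * (9 / 40 * w * (c0 * σ) * L ^ 2 - 1) ≤
      ∑ i ∈ range N, (∑ n ∈ A i, f i n + ∑ n ∈ B i, f i n) := by
    have h1 : ∀ i ∈ range N, 9 / 40 * w * (c0 * σ) * L ^ 2 - 1 ≤
        ∑ n ∈ A i, f i n + ∑ n ∈ B i, f i n := by
      intro i hi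
      rw [← hsplit i hi]
      have h2 : 9 / 10 ≤ t i := by
        have := ht0 i hi
        linarith
      refine le_trans ?_ (hwin z hzz1 (t i) h2 (ht1 i))
      have h3 : 1 - 2 * Real.log (1 / (2 * θ)) - σ / 2 = σ / 2 := by
        rw [← hσdef]
        ring
      rw [h3]
      have h4 : 0 ≤ w * (c0 * σ) * L ^ 2 := by positivity
      have h5 : w * (c0 * σ) * L ^ 2 * (9 / 10) ≤ w * (c0 * σ) * L ^ 2 * t i :=
        mul_le_mul_of_nonneg_left h2 h4
      nlinarith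
    have h2 := Finset.card_nsmul_le_sum _ _ _ h1
    rwa [Finset.card_range, nsmul_eq_mul] at h2
  rw [Finset.sum_add_distrib] at hlow
  -- the nonsmooth part
  have hdisj : ∀ i j : ℕ, i < j → Disjoint (A i) (A j) := by
    intro i j hij
    rw [Finset.disjoint_left]
    intro n hn1 hn2
    have h1 := (hWm i n (Finset.mem_filter.1 hn1).1).2.1
    have h2 := (hWm j n (Finset.mem_filter.1 hn2).1).2.2
    have h3 : z ^ t j ≤ z ^ (t i * (1 - w)) := by
      apply Real.rpow_le_rpow_of_exponent_le hz1'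
      have h4 : (i : ℝ) + 1 ≤ j := by exact_mod_cast hij
      have h5 : t j ≤ t i - w := by
        simp only [ht]
        nlinarith
      have h6 : t i * w ≤ 1 * w := mul_le_mul_of_nonneg_right (ht1 i) hw0.le
      linarith
    linarith
  have hbadt : ∑ i ∈ range N, ∑ n ∈ A i, f i n ≤
      L * (C1 / θ ^ 2 * L * Real.sqrt (2 * δ / J) + 2 * w * K * (C1 / θ ^ 2 * L * (2 * δ))) := by
    apply bad_total hF hz3 hw0.le hg hg1 N A t
    · intro i _ j _ hij
      rcases lt_or_gt_of_ne hij with h | h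
      · exact hdisj i j h
      · exact (hdisj j i h).symm
    · intro i hi n hn
      have hn' := Finset.mem_filter.1 hn
      obtain ⟨hp, h1, h2⟩ := hWm i n hn'.1
      refine ⟨hp, hWz i n hn'.1, ?_, ?_⟩
      · have hn2 : (2 : ℝ) ≤ n := by exact_mod_cast hp.two_le
        have hn0 : (0 : ℝ) < n := by linarith
        have hn1 : (((n - 1 : ℕ)) : ℝ) = n - 1 := by
          rw [Nat.cast_sub hp.one_le, Nat.cast_one]
        have h3 : lg z (n - 1) ≤ t i := by
          unfold lg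
          rw [hn1, div_le_iff₀ hL0, ← Real.log_rpow hzp]
          exact Real.log_le_log (by linarith) (by linarith)
        have h4 : t i - 2 * w ≤ lg z (n - 1) := by
          unfold lg
          rw [hn1, le_div_iff₀ hL0]
          have h5 : Real.log (z ^ (t i * (1 - w))) < Real.log n :=
            Real.log_lt_log (by positivity) h1
          rw [Real.log_rpow hzp] at h5
          have h6 : Real.log (n / 2 : ℝ) ≤ Real.log (n - 1 : ℝ) :=
            Real.log_le_log (by linarith) (by linarith)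
          rw [Real.log_div hn0.ne' (by norm_num)] at h6
          have h7 : Real.log 2 ≤ w * L := by
            rw [div_le_iff₀ hw0] at hLw
            linarith
          have h8 : t i * w * L ≤ w * L := by
            have : t i * w ≤ 1 * w := mul_le_mul_of_nonneg_right (ht1 i) hw0.le
            rw [one_mul] at this
            exact mul_le_mul_of_nonneg_right this hL0.le
          rw [← hL] at h5
          nlinarith
        rw [abs_le]
        constructor <;> linarith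
      · have h3 := hn'.2
        simp only [hSm] at h3
        push Not at h3
        obtain ⟨q, hq, hqn, hqz⟩ := h3
        exact ⟨q, hq, hqz, hqn⟩
    · intro S hS
      refine hbadz z hzz2 S ?_
      intro s hs
      obtain ⟨h1, h2, h3, h4, h5⟩ := hS s hs
      obtain ⟨i, hi, hin⟩ := Finset.mem_biUnion.1 h5
      have hiW := (Finset.mem_filter.1 hin).1
      have h6 := hWl i hi _ hiW
      have h7 := hWz i _ hiW
      have h8 : ((s.1 * s.2 + 1 : ℕ) : ℝ) = ((s.1 * s.2 : ℕ) : ℝ) + 1 := by push_cast; ring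
      rw [h8] at h6 h7
      have h9 : (1 : ℝ) ≤ ((s.1 * s.2 : ℕ) : ℝ) := by
        have : 0 < s.1 * s.2 := Nat.mul_pos h1.pos (by omega)
        exact_mod_cast this
      refine ⟨h1, h2, h3, h4, ?_, by linarith⟩
      have h10 : 2 * z ^ (1 - 2 * δ) ≤ z ^ (1 - δ) := by
        calc 2 * z ^ (1 - 2 * δ) ≤ z ^ δ * z ^ (1 - 2 * δ) :=
              mul_le_mul_of_nonneg_right hzδ (by positivity)
          _ = z ^ (1 - δ) := by
              rw [← Real.rpow_add hzp]
              congr 1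
              ring
      linarith
  have hbadt' : ∑ i ∈ range N, ∑ n ∈ A i, f i n ≤ 2 * (m / 100) * L ^ 2 := by
    refine hbadt.trans ?_
    have h1 := mul_le_mul_of_nonneg_right hJ (by positivity : 0 ≤ L ^ 2)
    have h2 := mul_le_mul_of_nonneg_right hwK (by positivity : 0 ≤ L ^ 2)
    nlinarith
  -- the smooth part
  have hsm : ∑ i ∈ range N, ∑ n ∈ B i, f i n ≤
      N * (P.card * (L * (1 / z ^ (1 - 2 * δ)) * (K * (1 / 16) * (C7 * z ^ δ)))) := by
    apply smooth_total hF hε0 (by norm_num) hz3 hδ0 hdiv hg hg1 hσ N B t P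
    intro i hi
    refine ⟨hx3 i hi, ?_, ?_⟩
    · have := htw i hi
      linarith
    · intro n hn
      have hn' := Finset.mem_filter.1 hn
      obtain ⟨hp, h1, h2⟩ := hWm i n hn'.1
      have h3 := hWz i n hn'.1
      exact ⟨(hP n).2 ⟨hp, h3, hn'.2⟩, hp, h3⟩
  -- conclusion
  have hmain : 1 ≤ (N : ℝ) * (P.card * (L * (1 / z ^ (1 - 2 * δ)) *
      (K * (1 / 16) * (C7 * z ^ δ)))) := by
    have h1 : (N : ℝ) * (9 / 40 * w * (c0 * σ) * L ^ 2 - 1) ≤ 2 * (m / 100) * L ^ 2 +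
      N * (P.card * (L * (1 / z ^ (1 - 2 * δ)) * (K * (1 / 16) * (C7 * z ^ δ)))) := by linarith
    have h2 : 3 / 4 * δ * (9 / 40 * (c0 * σ) * L ^ 2) ≤ N * w * (9 / 40 * (c0 * σ) * L ^ 2) :=
      mul_le_mul_of_nonneg_right hNw' (by positivity)
    have h3 : 8 * ((N : ℝ) + 1) ≤ m * L := by
      rw [div_le_iff₀ hm0] at hLm
      linarith
    have h4 : 8 * ((N : ℝ) + 1) ≤ m * L ^ 2 := by
      have h5 : m * L * 1 ≤ m * L * L := mul_le_mul_of_nonneg_left hL1 (by positivity)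
      nlinarith
    have h5 : 3 / 4 * δ * (9 / 40 * (c0 * σ) * L ^ 2) = 27 / 160 * (m * L ^ 2) := by
      rw [hm]
      ring
    have h6 : (N : ℝ) * (9 / 40 * w * (c0 * σ) * L ^ 2 - 1) =
        N * w * (9 / 40 * (c0 * σ) * L ^ 2) - N := by ring
    rw [h6] at h1
    rw [h5] at h2
    have h7 : 0 ≤ m * L ^ 2 := by positivity
    linarith
  have hz12 : 0 < z ^ (1 - 2 * δ) := by positivity
  have h1 : (N : ℝ) * (P.card * (L * (1 / z ^ (1 - 2 * δ)) *
      (K * (1 / 16) * (C7 * z ^ δ)))) =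
      (N * (K * (1 / 16) * C7) * L) * z ^ δ * P.card / z ^ (1 - 2 * δ) := by ring
  rw [h1, one_le_div hz12] at hmain
  have h2 : (N * (K * (1 / 16) * C7) * L) * z ^ δ * P.card ≤ z ^ δ * z ^ δ * P.card :=
    mul_le_mul_of_nonneg_right (mul_le_mul_of_nonneg_right hzK (by positivity)) (Nat.cast_nonneg _)
  have h3 : z ^ (1 - 2 * δ) ≤ z ^ δ * z ^ δ * P.card := hmain.trans h2
  have h4 : z ^ (1 - 2 * δ) = z ^ δ * z ^ δ * z ^ (1 - 4 * δ) := by
    rw [← Real.rpow_add hzp, ← Real.rpow_add hzp]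
    congr 1
    ring
  rw [h4] at h3
  have h5 : z ^ (1 - 4 * δ) ≤ P.card := le_of_mul_le_mul_left h3 (by positivity)
  refine le_trans (Real.rpow_le_rpow_of_exponent_le hz1' ?_) h5
  linarith

/-- m10: smooth shifted primes for every `θ > exp(-1/2)/2`, from the two results on the kernel. -/
theorem m10 (hB : Helper96.SP.Bump) (hBad : Helper96.SP.BadSum) {θ : ℝ} (hθ0 : 0 < θ)
    (hθ : θ < 1 / 2) (hlam : Real.log (1 / (2 * θ)) < 1 / 2) : Helper34.CA.Smooth θ := by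
  obtain ⟨c0, C, h⟩ := Helper26.CA.phi_sum
  exact m10_aux h CA.gw CA.bvMain hB hBad hθ0 hθ hlam

/-- The range of `θ`. -/
theorem lam_lt {θ : ℝ} (h : Real.exp (-(1 / 2)) / 2 < θ) : Real.log (1 / (2 * θ)) < 1 / 2 := by
  have he : 0 < Real.exp (-(1 / 2)) := Real.exp_pos _
  have hθ : 0 < θ := by linarith
  rw [one_div, Real.log_inv]
  have h1 : -(1 / 2) < Real.log (2 * θ) := by
    rw [Real.lt_log_iff_exp_lt (by positivity)]
    linarith
  linarith

theorem m10' (hB : Helper96.SP.Bump) (hBad : Helper96.SP.BadSum) (θ : ℝ)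
    (h0 : Real.exp (-(1 / 2)) / 2 < θ) (hθ : θ < 1 / 2) : Helper34.CA.Smooth θ := by
  have he : 0 < Real.exp (-(1 / 2)) := Real.exp_pos _
  exact m10 hB hBad (by linarith) hθ (lam_lt h0)

end Pool.Agent.Helper18.CB
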