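import Pool.Agent.Helper18.CB.Riem

/-!
# Project CB: the mass of the weights
-/

set_option autoImplicit false

open Finset Filter Topology MeasureTheory
open Pool.Agent.Helper18.CA (PhiSum)

namespace Pool.Agent.Helper18.CB

variable {ε l K : ℝ} {F : ℝ → ℝ}

/-- The block number `j`. -/
noncomputable def Blk (z τ h : ℝ) (j : ℕ) : Finset ℕ :=
  Ioc ⌊z ^ (τ / 2 - (j + 1 : ℕ) * h)⌋₊ ⌊z ^ (τ / 2 - (j : ℕ) * h)⌋₊

theorem mem_Blk {z τ h : ℝ} (hz : 3 ≤ z) {j m : ℕ} (hm : m ∈ Blk z τ h j) :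
    1 ≤ m ∧ z ^ (τ / 2 - (j + 1 : ℕ) * h) < m ∧ (m : ℝ) ≤ z ^ (τ / 2 - (j : ℕ) * h) ∧
    j * h ≤ τ / 2 - lg z m ∧ τ / 2 - lg z m ≤ (j + 1 : ℕ) * h := by
  unfold Blk at hm
  have hz0 : 0 < z := by linarith
  have hL : 0 < Real.log z := Real.log_pos (by linarith)
  rw [Finset.mem_Ioc] at hm
  have h1 : z ^ (τ / 2 - (j + 1 : ℕ) * h) < m := (Nat.floor_lt (by positivity)).1 hm.1
  have h2 : (m : ℝ) ≤ z ^ (τ / 2 - (j : ℕ) * h) :=
    (Nat.cast_le.2 hm.2).trans (Nat.floor_le (by positivity))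
  have hm0 : (0 : ℝ) < m := lt_trans (by positivity) h1
  have e1 : lg z m * Real.log z = Real.log m := by unfold lg; field_simp
  refine ⟨by exact_mod_cast hm0, h1, h2, ?_, ?_⟩
  · have h3 := Real.log_le_log hm0 h2
    rw [Real.log_rpow hz0, ← e1] at h3
    have := le_of_mul_le_mul_right h3 hL
    linarith
  · have h3 := Real.log_le_log (by positivity) h1.le
    rw [Real.log_rpow hz0, ← e1] at h3
    have := le_of_mul_le_mul_right h3 hL
    linarith

theorem Kern.sumF_le (hF : Kern ε l K F) (hε : 0 < ε) (N : ℕ) (h : ℝ) :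
    ∑ j ∈ range N, F (j * h) ≤ N * (K * l) := by
  refine (Finset.sum_le_sum fun j _ => hF.le hε _).trans (le_of_eq ?_)
  rw [Finset.sum_const, Finset.card_range, nsmul_eq_mul]

theorem Kern.lower (hF : Kern ε l K F) (hε : 0 < ε) (hl : 0 < l) {N : ℕ} (hN : 1 ≤ N)
    {z : ℝ} (hz : 3 ≤ z) (τ : ℝ) {M : ℕ} (hM : ⌊z ^ (τ / 2)⌋₊ ≤ M) (w w' : ℕ → ℝ)
    {α β α' β' : ℝ} (hα' : 0 ≤ α') (hβ' : 0 ≤ β') (hw : ∀ m, |w' m| ≤ w m)
    (hup : ∀ j < N, ∑ m ∈ Blk z τ (2 * l / N) j, w m ≤ α * (2 * l / N * Real.log z) + β)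
    (hlow : ∀ j < N, α' * (2 * l / N * Real.log z) - β' ≤ ∑ m ∈ Blk z τ (2 * l / N) j, w' m) :
    α' * Real.log z * (1 - K * (2 * l / N) * (2 * l)) - N * (β' * (K * l)) -
      K * (2 * l / N) * (α * (2 * l * Real.log z) + N * β) ≤
      ∑ m ∈ Icc 1 M, w' m * F (τ / 2 - lg z m) := by
  have hN0 : (0 : ℝ) < N := by exact_mod_cast hN
  have hL : 0 < Real.log z := Real.log_pos (by linarith)
  have hK := hF.K_nonneg
  rw [hF.blocks hε hl hN hz τ hM w']
  have hr := abs_le.1 (hF.riem hε hl hN)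
  have hs := hF.sumF_le hε N (2 * l / N)
  set h : ℝ := 2 * l / N with hh
  have hh0 : 0 < h := by positivity
  have hNh : N * h = 2 * l := by rw [hh]; field_simp
  have h1 : ∀ j ∈ range N, F (j * h) * (α' * (h * Real.log z) - β') -
      K * h * (α * (h * Real.log z) + β) ≤
      ∑ m ∈ Blk z τ h j, w' m * F (τ / 2 - lg z m) := by
    intro j hj
    rw [Finset.mem_range] at hj
    have e1 : F (j * h) * ∑ m ∈ Blk z τ h j, w' m - K * h * ∑ m ∈ Blk z τ h j, w m ≤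
        ∑ m ∈ Blk z τ h j, w' m * F (τ / 2 - lg z m) := by
      rw [Finset.mul_sum, Finset.mul_sum, ← Finset.sum_sub_distrib]
      refine Finset.sum_le_sum fun m hm => ?_
      obtain ⟨-, -, -, h4, h5⟩ := mem_Blk hz hm
      have h6 := hF.lip (τ / 2 - lg z m) (j * h)
      have h7 : |τ / 2 - lg z m - j * h| ≤ h := by
        rw [abs_of_nonneg (by linarith)]
        push_cast at h5
        linarith
      have h8 : |F (τ / 2 - lg z m) - F (j * h)| ≤ K * h :=
        h6.trans (mul_le_mul_of_nonneg_left h7 hK)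
      have h9 : |w' m * (F (τ / 2 - lg z m) - F (j * h))| ≤ w m * (K * h) := by
        rw [abs_mul]
        exact mul_le_mul (hw m) h8 (abs_nonneg _) ((abs_nonneg _).trans (hw m))
      have h10 := (abs_le.1 h9).1
      have h11 : w' m * (F (τ / 2 - lg z m) - F (j * h)) =
          w' m * F (τ / 2 - lg z m) - F (j * h) * w' m := by ring
      rw [h11] at h10
      linarith
    have e2 := mul_le_mul_of_nonneg_left (hlow j hj) (hF.nonneg (j * h))
    have e3 := mul_le_mul_of_nonneg_left (hup j hj) (by positivity : 0 ≤ K * h)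
    linarith
  refine le_trans ?_ (Finset.sum_le_sum h1)
  rw [Finset.sum_sub_distrib, ← Finset.sum_mul, Finset.sum_const, Finset.card_range, nsmul_eq_mul]
  set SF := ∑ j ∈ range N, F (j * h) with hSF
  have e1 : α' * Real.log z * (1 - K * h * (2 * l)) ≤ α' * Real.log z * (h * SF) := by
    apply mul_le_mul_of_nonneg_left _ (by positivity)
    linarith [hr.1]
  have e2 : SF * β' ≤ N * (K * l) * β' := mul_le_mul_of_nonneg_right hs hβ'
  have e3 : (N : ℝ) * (K * h * (α * (h * Real.log z) + β)) =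
      K * h * (α * (2 * l * Real.log z) + N * β) := by
    rw [← hNh]
    ring
  rw [e3]
  have e4 : SF * (α' * (h * Real.log z) - β') = α' * Real.log z * (h * SF) - SF * β' := by ring
  rw [e4]
  linarith

theorem Kern.upper (hF : Kern ε l K F) (hε : 0 < ε) (hl : 0 < l) {N : ℕ} (hN : 1 ≤ N)
    {z : ℝ} (hz : 3 ≤ z) (τ : ℝ) {M : ℕ} (hM : ⌊z ^ (τ / 2)⌋₊ ≤ M) (w : ℕ → ℝ)
    {α β : ℝ} (hα : 0 ≤ α) (hβ : 0 ≤ β) (hw : ∀ m, 0 ≤ w m)
    (hup : ∀ j < N, ∑ m ∈ Blk z τ (2 * l / N) j, w m ≤ α * (2 * l / N * Real.log z) + β) :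
    ∑ m ∈ Icc 1 M, w m * F (τ / 2 - lg z m) ≤
    α * Real.log z * (1 + K * (2 * l / N) * (2 * l)) + N * (β * (K * l)) +
      K * (2 * l / N) * (α * (2 * l * Real.log z) + N * β) := by
  have hN0 : (0 : ℝ) < N := by exact_mod_cast hN
  have hL : 0 < Real.log z := Real.log_pos (by linarith)
  have hK := hF.K_nonneg
  rw [hF.blocks hε hl hN hz τ hM w]
  have hr := abs_le.1 (hF.riem hε hl hN)
  have hs := hF.sumF_le hε N (2 * l / N)
  set h : ℝ := 2 * l / N with hh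
  have hh0 : 0 < h := by positivity
  have hNh : N * h = 2 * l := by rw [hh]; field_simp
  have h1 : ∀ j ∈ range N, ∑ m ∈ Blk z τ h j, w m * F (τ / 2 - lg z m) ≤
      F (j * h) * (α * (h * Real.log z) + β) + K * h * (α * (h * Real.log z) + β) := by
    intro j hj
    rw [Finset.mem_range] at hj
    have e1 : ∑ m ∈ Blk z τ h j, w m * F (τ / 2 - lg z m) ≤
        F (j * h) * ∑ m ∈ Blk z τ h j, w m + K * h * ∑ m ∈ Blk z τ h j, w m := by
      rw [Finset.mul_sum, Finset.mul_sum, ← Finset.sum_add_distrib]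
      refine Finset.sum_le_sum fun m hm => ?_
      obtain ⟨-, -, -, h4, h5⟩ := mem_Blk hz hm
      have h6 := hF.lip (τ / 2 - lg z m) (j * h)
      have h7 : |τ / 2 - lg z m - j * h| ≤ h := by
        rw [abs_of_nonneg (by linarith)]
        push_cast at h5
        linarith
      have h8 : |F (τ / 2 - lg z m) - F (j * h)| ≤ K * h :=
        h6.trans (mul_le_mul_of_nonneg_left h7 hK)
      have h9 := mul_le_mul_of_nonneg_left (abs_le.1 h8).2 (hw m)
      have h11 : w m * (F (τ / 2 - lg z m) - F (j * h)) =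
          w m * F (τ / 2 - lg z m) - F (j * h) * w m := by ring
      rw [h11] at h9
      linarith
    have e2 := mul_le_mul_of_nonneg_left (hup j hj) (hF.nonneg (j * h))
    have e3 := mul_le_mul_of_nonneg_left (hup j hj) (by positivity : 0 ≤ K * h)
    linarith
  refine (Finset.sum_le_sum h1).trans ?_
  rw [Finset.sum_add_distrib, ← Finset.sum_mul, Finset.sum_const, Finset.card_range, nsmul_eq_mul]
  set SF := ∑ j ∈ range N, F (j * h) with hSF
  have e1 : α * Real.log z * (h * SF) ≤ α * Real.log z * (1 + K * h * (2 * l)) := by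
    apply mul_le_mul_of_nonneg_left _ (by positivity)
    linarith [hr.2]
  have e2 : SF * β ≤ N * (K * l) * β := mul_le_mul_of_nonneg_right hs hβ
  have e3 : (N : ℝ) * (K * h * (α * (h * Real.log z) + β)) =
      K * h * (α * (2 * l * Real.log z) + N * β) := by
    rw [← hNh]
    ring
  rw [e3]
  have e4 : SF * (α * (h * Real.log z) + β) = α * Real.log z * (h * SF) + SF * β := by ring
  rw [e4]
  linarith

/-- The sign: `+1` if `m` is `z ^ θ`-smooth, `-1` otherwise. -/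
noncomputable def sg (z θ : ℝ) (m : ℕ) : ℝ := by
  classical
  exact if ∀ q : ℕ, q.Prime → q ∣ m → (q : ℝ) ≤ z ^ θ then 1 else -1

theorem abs_sg (z θ : ℝ) (m : ℕ) : |sg z θ m| = 1 := by
  unfold sg
  split_ifs <;> simp

theorem sg_le_one (z θ : ℝ) (m : ℕ) : sg z θ m ≤ 1 := by
  unfold sg
  split_ifs <;> norm_num

theorem sg_of_dvd {z θ : ℝ} {m q : ℕ} (hq : q.Prime) (hqz : z ^ θ < q) (h : q ∣ m) :
    sg z θ m = -1 := by
  unfold sg
  rw [if_neg]
  intro h1
  have := h1 q hq h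
  linarith

/-- The mass of one block. -/
theorem blk_phi {c0 C : ℝ} (hΦ : PhiSum c0 C) {z τ h : ℝ} (hz : 3 ≤ z) (hh : 0 < h) {j : ℕ}
    (hj : ((j + 1 : ℕ) : ℝ) * h ≤ τ / 2) :
    ∑ m ∈ Blk z τ h j, (1 : ℝ) / m.totient ≤ c0 * (h * Real.log z) + C ∧
    c0 * (h * Real.log z) - C ≤ ∑ m ∈ Blk z τ h j, (1 : ℝ) / m.totient := by
  have hz0 : 0 < z := by linarith
  have hz1 : 1 ≤ z := by linarith
  have hA : 1 ≤ z ^ (τ / 2 - (j + 1 : ℕ) * h) := Real.one_le_rpow hz1 (by linarith)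
  have hAB : z ^ (τ / 2 - (j + 1 : ℕ) * h) ≤ z ^ (τ / 2 - (j : ℕ) * h) := by
    apply Real.rpow_le_rpow_of_exponent_le hz1
    push_cast
    nlinarith
  have hlog : Real.log (z ^ (τ / 2 - (j : ℕ) * h) / z ^ (τ / 2 - (j + 1 : ℕ) * h)) =
      h * Real.log z := by
    rw [← Real.rpow_sub hz0, Real.log_rpow hz0]
    push_cast
    ring
  have h1 := hΦ.2.2.1 _ _ (by linarith) hAB
  have h2 := hΦ.2.2.2 _ _ hA hAB
  rw [hlog] at h1 h2
  exact ⟨h1, h2⟩

theorem blk_mult {c0 C : ℝ} (hΦ : PhiSum c0 C) {z τ h : ℝ} (hz : 3 ≤ z) (hh : 0 < h) {j : ℕ}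
    (P : Finset ℕ) (hP : ∀ r ∈ P, r.Prime) (S : Finset ℕ)
    (hS : ∀ m ∈ S, m ∈ Blk z τ h j ∧ ∃ r ∈ P, r ∣ m) :
    ∑ m ∈ S, (1 : ℝ) / m.totient ≤
      (∑ r ∈ P, 1 / ((r : ℝ) - 1)) * (c0 * (h * Real.log z) + C) := by
  have hz0 : 0 < z := by linarith
  have hz1 : 1 ≤ z := by linarith
  have hAB : z ^ (τ / 2 - (j + 1 : ℕ) * h) ≤ z ^ (τ / 2 - (j : ℕ) * h) := by
    apply Real.rpow_le_rpow_of_exponent_le hz1
    push_cast
    nlinarith
  have hlog : Real.log (z ^ (τ / 2 - (j : ℕ) * h) / z ^ (τ / 2 - (j + 1 : ℕ) * h)) =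
      h * Real.log z := by
    rw [← Real.rpow_sub hz0, Real.log_rpow hz0]
    push_cast
    ring
  have h1 := CA.bad_sum hΦ (by positivity : 0 < z ^ (τ / 2 - (j + 1 : ℕ) * h)) hAB P hP S
    (fun m hm => by
      obtain ⟨h1, h2⟩ := hS m hm
      obtain ⟨-, h3, h4, -, -⟩ := mem_Blk hz h1
      exact ⟨h3, h4, h2⟩)
  rwa [hlog] at h1

/-- The signed mass. -/
theorem mass_lower {c0 C : ℝ} (hΦ : PhiSum c0 C) {θ : ℝ} (hθ0 : 0 < θ) (hθ : θ < 1 / 2)
    (hlam : Real.log (1 / (2 * θ)) < 1 / 2) (hF : Kern ε l K F) (hε : 0 < ε) (hl : 0 < l)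
    (hl1 : l ≤ 1 / 10) {ρ : ℝ} (hρ : 0 < ρ) :
    ∃ z0 : ℝ, 3 ≤ z0 ∧ ∀ z : ℝ, z0 ≤ z → ∀ τ : ℝ, 9 / 10 ≤ τ → τ ≤ 1 → ∀ M : ℕ,
      ⌊z ^ (τ / 2)⌋₊ ≤ M →
      c0 * Real.log z * (1 - 2 * Real.log (1 / (2 * θ)) - ρ) ≤
        ∑ m ∈ Icc 1 M, (sg z θ m / m.totient) * F (τ / 2 - lg z m) := by
  classical
  set lam := Real.log (1 / (2 * θ)) with hlamdef
  have hlam0 : 0 ≤ lam := by
    apply Real.log_nonneg
    rw [le_div_iff₀ (by positivity)]
    linarith
  have hc0 := hΦ.1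
  have hC0 := hΦ.2.1
  have hK := hF.K_nonneg
  obtain ⟨C1, X1, hC1, hX1, hp1⟩ := CA.prime_sum (γ := 1 / 2) hθ0 hθ.le
  -- the number of blocks
  obtain ⟨N, hN⟩ := exists_nat_gt (12 * l * (K * (2 * l)) / ρ + 1)
  have hN1 : 1 ≤ N := by
    have : (0 : ℝ) ≤ 12 * l * (K * (2 * l)) / ρ := by positivity
    have : (1 : ℝ) < N := by linarith
    exact_mod_cast this.le
  have hN0 : (0 : ℝ) < N := by exact_mod_cast hN1
  set h : ℝ := 2 * l / N with hh
  have hh0 : 0 < h := by positivity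
  have hNh : N * h = 2 * l := by rw [hh]; field_simp
  have hKh : K * h * (2 * l) ≤ ρ / 6 := by
    have h1 : 12 * l * (K * (2 * l)) / ρ < N := by linarith
    rw [div_lt_iff₀ hρ] at h1
    rw [hh]
    have e1 : K * (2 * l / N) * (2 * l) = (12 * l * (K * (2 * l))) / (6 * N) := by
      field_simp
      ring
    rw [e1, div_le_iff₀ (by positivity)]
    linarith
  have hh1 : h ≤ 1 := by
    rw [hh, div_le_one hN0]
    have : (1 : ℝ) ≤ N := by exact_mod_cast hN1
    linarith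
  set β' : ℝ := C + 2 * lam * C + 2 * C1 * c0 + 2 * C1 * C with hβ'
  have hβ'0 : 0 ≤ β' := by positivity
  set E : ℝ := N * (β' * (K * l)) + K * h * (N * C) with hE
  have hE0 : 0 ≤ E := by positivity
  refine ⟨max X1 (Real.exp (max 1 (2 * E / (c0 * ρ)))), hX1.trans (le_max_left _ _), ?_⟩
  intro z hz τ hτ0 hτ1 M hM
  have hzX1 : X1 ≤ z := (le_max_left _ _).trans hz
  have hz3 : 3 ≤ z := hX1.trans hzX1
  have hz0 : 0 < z := by linarith
  have hz1 : 1 ≤ z := by linarith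
  set L := Real.log z with hL
  have hLm : max 1 (2 * E / (c0 * ρ)) ≤ L :=
    (Real.le_log_iff_exp_le hz0).2 ((le_max_right _ _).trans hz)
  have hL1 : 1 ≤ L := (le_max_left _ _).trans hLm
  have hLE : 2 * E / (c0 * ρ) ≤ L := (le_max_right _ _).trans hLm
  have hLpos : 0 < L := by linarith
  rw [div_le_iff₀ (by positivity)] at hLE
  have hjh : ∀ j < N, ((j + 1 : ℕ) : ℝ) * h ≤ τ / 2 := by
    intro j hj
    have h1 : ((j + 1 : ℕ) : ℝ) ≤ N := by exact_mod_cast hj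
    have h2 : ((j + 1 : ℕ) : ℝ) * h ≤ N * h := mul_le_mul_of_nonneg_right h1 hh0.le
    rw [hNh] at h2
    linarith
  set P := (Ioc ⌊z ^ θ⌋₊ ⌊z ^ (1 / 2 : ℝ)⌋₊).filter Nat.Prime with hP
  have hPp : ∀ r ∈ P, r.Prime := fun r hr => (Finset.mem_filter.1 hr).2
  have hPs : ∑ r ∈ P, 1 / ((r : ℝ) - 1) ≤ lam + C1 / L := by
    have h2 := hp1 z hzX1
    have h3 : Real.log (1 / 2 / θ) = lam := by
      rw [hlamdef]
      congr 1
      field_simp
    rwa [h3] at h2
  have hkey := hF.lower hε hl hN1 hz3 τ hM (fun m => (1 : ℝ) / m.totient)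
    (fun m => sg z θ m / m.totient) (α := c0) (β := C) (α' := c0 * (1 - 2 * lam)) (β' := β')
    (mul_nonneg hc0.le (by linarith)) hβ'0 (by
      intro m
      rw [abs_div, abs_sg, Nat.abs_cast])
    (fun j hj => (blk_phi hΦ hz3 hh0 (hjh j hj)).1) (by
      intro j hj
      have h1 := (blk_phi hΦ hz3 hh0 (hjh j hj)).2
      have h2 : ∑ m ∈ Blk z τ h j, sg z θ m / (m.totient : ℝ) =
          ∑ m ∈ Blk z τ h j, (1 : ℝ) / m.totient -
          2 * ∑ m ∈ (Blk z τ h j).filter (fun m => ¬ ∀ q : ℕ, q.Prime → q ∣ m → (q : ℝ) ≤ z ^ θ),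
            (1 : ℝ) / m.totient := by
        rw [Finset.mul_sum, Finset.sum_filter, ← Finset.sum_sub_distrib]
        refine Finset.sum_congr rfl fun m _ => ?_
        unfold sg
        by_cases hm : ∀ q : ℕ, q.Prime → q ∣ m → (q : ℝ) ≤ z ^ θ
        · rw [if_pos hm, if_neg (not_not.mpr hm)]
          ring
        · rw [if_neg hm, if_pos hm]
          ring
      have h3 := blk_mult hΦ hz3 hh0 (τ := τ) (j := j) P hPp
        ((Blk z τ h j).filter (fun m => ¬ ∀ q : ℕ, q.Prime → q ∣ m → (q : ℝ) ≤ z ^ θ)) (by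
          intro m hm
          rw [Finset.mem_filter] at hm
          refine ⟨hm.1, ?_⟩
          have h4 := hm.2
          push Not at h4
          obtain ⟨q, hq, hqm, hqz⟩ := h4
          refine ⟨q, ?_, hqm⟩
          obtain ⟨h5, h6, h7, -, -⟩ := mem_Blk hz3 hm.1
          rw [hP, Finset.mem_filter, Finset.mem_Ioc]
          refine ⟨⟨(Nat.floor_lt (by positivity)).2 hqz, Nat.le_floor ?_⟩, hq⟩
          have h8 : (q : ℝ) ≤ m := by exact_mod_cast Nat.le_of_dvd h5 hqm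
          refine h8.trans (h7.trans (Real.rpow_le_rpow_of_exponent_le hz1 ?_))
          have : (0 : ℝ) ≤ j * h := by positivity
          linarith)
      have h4 : (∑ r ∈ P, 1 / ((r : ℝ) - 1)) * (c0 * (h * L) + C) ≤
          (lam + C1 / L) * (c0 * (h * L) + C) := mul_le_mul_of_nonneg_right hPs (by positivity)
      rw [h2]
      have h5 : (lam + C1 / L) * (c0 * (h * L) + C) =
          lam * (c0 * (h * L)) + lam * C + C1 * c0 * h + C1 * C / L := by
        field_simp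
        ring
      have h6 : C1 * c0 * h ≤ C1 * c0 := by
        have : 0 ≤ C1 * c0 := by positivity
        nlinarith
      have h7 : C1 * C / L ≤ C1 * C := div_le_self (by positivity) hL1
      rw [hβ']
      linarith)
  refine le_trans ?_ hkey
  rw [← hh, ← hL]
  have e1 : c0 * (1 - 2 * lam) * L * (K * h * (2 * l)) ≤ c0 * L * (ρ / 6) := by
    have h1 : c0 * (1 - 2 * lam) * L ≤ c0 * L := by
      have : 0 ≤ c0 * L * lam := by positivity
      nlinarith
    have h2 : 0 ≤ K * h * (2 * l) := by positivity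
    calc c0 * (1 - 2 * lam) * L * (K * h * (2 * l)) ≤ c0 * L * (K * h * (2 * l)) :=
          mul_le_mul_of_nonneg_right h1 h2
      _ ≤ c0 * L * (ρ / 6) := mul_le_mul_of_nonneg_left hKh (by positivity)
  have e2 : K * h * (c0 * (2 * l * L)) ≤ c0 * L * (ρ / 6) := by
    calc K * h * (c0 * (2 * l * L)) = c0 * L * (K * h * (2 * l)) := by ring
      _ ≤ c0 * L * (ρ / 6) := mul_le_mul_of_nonneg_left hKh (by positivity)
  have e3 : N * (β' * (K * l)) + K * h * (N * C) ≤ c0 * L * (ρ / 2) := by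
    have : N * (β' * (K * l)) + K * h * (N * C) = E := hE.symm
    rw [this]
    linarith
  nlinarith

end Pool.Agent.Helper18.CB
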