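import Pool.Agent.Helper18.CB.Mass

/-!
# Project CB: the pointwise inequality
-/

set_option autoImplicit false

open Finset Filter Topology MeasureTheory

namespace Pool.Agent.Helper18.CB

variable {ε l K : ℝ} {F : ℝ → ℝ}

/-- The weight of `n = p - 1` in the window with top `z ^ t`. -/
noncomputable def WW (F : ℝ → ℝ) (z θ t : ℝ) (n : ℕ) : ℝ :=
  ∑ m ∈ n.divisors, sg z θ m * F (t / 2 - lg z m)

theorem lg_mul {z : ℝ} {a b : ℕ} (ha : a ≠ 0) (hb : b ≠ 0) : lg z (a * b) = lg z a + lg z b := by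
  unfold lg
  rw [Nat.cast_mul, Real.log_mul (by exact_mod_cast ha) (by exact_mod_cast hb), add_div]

theorem lg_div {z : ℝ} {r k : ℕ} (hr : r ≠ 0) (hk : k ∣ r) : lg z (r / k) = lg z r - lg z k := by
  obtain ⟨c, rfl⟩ := hk
  have hk0 : k ≠ 0 := by rintro rfl; simp at hr
  have hc0 : c ≠ 0 := by rintro rfl; simp at hr
  rw [Nat.mul_div_cancel_left c (Nat.pos_of_ne_zero hk0), lg_mul hk0 hc0]
  ring

/-- The exact inequality. -/
theorem ww_le_dd (hF0 : ∀ y, 0 ≤ F y) {z θ : ℝ} {q r : ℕ} (hq : q.Prime) (hqz : z ^ θ < q)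
    (hr : r ≠ 0) :
    WW F z θ (lg z (q * r)) (q * r) ≤ DD F z r ((lg z r - lg z q) / 2) := by
  classical
  have hq0 : q ≠ 0 := hq.ne_zero
  have hτ : lg z (q * r) = lg z q + lg z r := lg_mul hq0 hr
  set b := (lg z r - lg z q) / 2 with hb
  unfold WW
  rw [← Finset.sum_filter_add_sum_filter_not ((q * r).divisors) (fun m => q ∣ m)]
  -- the divisors divisible by `q`
  have h1 : ∑ m ∈ (q * r).divisors.filter (fun m => q ∣ m),
      sg z θ m * F (lg z (q * r) / 2 - lg z m) = - ∑ k ∈ r.divisors, F (-(lg z k - b)) := by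
    have himg : (q * r).divisors.filter (fun m => q ∣ m) = r.divisors.image (fun k => q * k) := by
      ext m
      rw [Finset.mem_filter, Nat.mem_divisors, Finset.mem_image]
      constructor
      · rintro ⟨⟨h2, h3⟩, k, rfl⟩
        refine ⟨k, ?_, rfl⟩
        rw [Nat.mem_divisors]
        exact ⟨Nat.dvd_of_mul_dvd_mul_left hq.pos h2, hr⟩
      · rintro ⟨k, hk, rfl⟩
        rw [Nat.mem_divisors] at hk
        exact ⟨⟨Nat.mul_dvd_mul_left q hk.1, mul_ne_zero hq0 hr⟩, Dvd.intro k rfl⟩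
    rw [himg, Finset.sum_image (fun a _ b _ h => Nat.eq_of_mul_eq_mul_left hq.pos h),
      ← Finset.sum_neg_distrib]
    refine Finset.sum_congr rfl fun k hk => ?_
    have hk0 : k ≠ 0 := (Nat.pos_of_mem_divisors hk).ne'
    rw [sg_of_dvd hq hqz (Dvd.intro k rfl), lg_mul hq0 hk0, hτ]
    have : (lg z q + lg z r) / 2 - (lg z q + lg z k) = -(lg z k - b) := by
      rw [hb]
      ring
    rw [this]
    ring
  -- the others
  have h2 : ∑ m ∈ (q * r).divisors.filter (fun m => ¬ q ∣ m),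
      sg z θ m * F (lg z (q * r) / 2 - lg z m) ≤ ∑ k ∈ r.divisors, F (lg z k - b) := by
    have h3 : ∑ m ∈ (q * r).divisors.filter (fun m => ¬ q ∣ m),
        sg z θ m * F (lg z (q * r) / 2 - lg z m) ≤
        ∑ m ∈ (q * r).divisors.filter (fun m => ¬ q ∣ m), F (lg z (q * r) / 2 - lg z m) := by
      refine Finset.sum_le_sum fun m _ => ?_
      have := mul_le_mul_of_nonneg_right (sg_le_one z θ m) (hF0 (lg z (q * r) / 2 - lg z m))
      linarith
    have h4 : ∑ m ∈ (q * r).divisors.filter (fun m => ¬ q ∣ m), F (lg z (q * r) / 2 - lg z m) ≤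
        ∑ m ∈ r.divisors, F (lg z (q * r) / 2 - lg z m) := by
      refine Finset.sum_le_sum_of_subset_of_nonneg ?_ (fun _ _ _ => hF0 _)
      intro m hm
      rw [Finset.mem_filter, Nat.mem_divisors] at hm
      rw [Nat.mem_divisors]
      refine ⟨?_, hr⟩
      have hco : m.Coprime q := ((Nat.Prime.coprime_iff_not_dvd hq).2 hm.2).symm
      exact hco.dvd_of_dvd_mul_left hm.1.1
    refine h3.trans (h4.trans (le_of_eq ?_))
    rw [← Nat.sum_div_divisors r (fun m => F (lg z (q * r) / 2 - lg z m))]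
    refine Finset.sum_congr rfl fun k hk => ?_
    rw [lg_div hr (Nat.dvd_of_mem_divisors hk), hτ]
    congr 1
    rw [hb]
    ring
  have h5 : DD F z r b = ∑ k ∈ r.divisors, F (lg z k - b) - ∑ k ∈ r.divisors, F (-(lg z k - b)) := by
    unfold DD Fo
    rw [Finset.sum_sub_distrib]
  rw [h5, h1]
  linarith

/-- Freezing. -/
theorem ww_freeze (hF : Kern ε l K F) {z θ t τ : ℝ} (n : ℕ) :
    WW F z θ t n ≤ WW F z θ τ n + K * (|t - τ| / 2) * n.divisors.card := by
  unfold WW
  have h1 : ∀ m ∈ n.divisors, sg z θ m * F (t / 2 - lg z m) ≤ sg z θ m * F (τ / 2 - lg z m) +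
      K * (|t - τ| / 2) := by
    intro m _
    have h2 := hF.lip (t / 2 - lg z m) (τ / 2 - lg z m)
    rw [show t / 2 - lg z m - (τ / 2 - lg z m) = (t - τ) / 2 by ring, abs_div,
      abs_of_pos (by norm_num : (0 : ℝ) < 2)] at h2
    have h3 : |sg z θ m * (F (t / 2 - lg z m) - F (τ / 2 - lg z m))| ≤ K * (|t - τ| / 2) := by
      rw [abs_mul, abs_sg, one_mul]
      exact h2
    have h4 := (abs_le.1 h3).2
    rw [mul_sub] at h4
    linarith
  refine (Finset.sum_le_sum h1).trans (le_of_eq ?_)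
  rw [Finset.sum_add_distrib, Finset.sum_const, nsmul_eq_mul]
  ring

theorem card_div_mul {q r : ℕ} (hq : q.Prime) (hr : r ≠ 0) :
    (q * r).divisors.card ≤ 2 * r.divisors.card := by
  classical
  have hsub : (q * r).divisors ⊆ r.divisors ∪ r.divisors.image (fun k => q * k) := by
    intro m hm
    rw [Nat.mem_divisors] at hm
    rw [Finset.mem_union, Finset.mem_image]
    by_cases h : q ∣ m
    · right
      obtain ⟨k, rfl⟩ := h
      exact ⟨k, Nat.mem_divisors.2 ⟨Nat.dvd_of_mul_dvd_mul_left hq.pos hm.1, hr⟩, rfl⟩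
    · left
      have hco : m.Coprime q := ((Nat.Prime.coprime_iff_not_dvd hq).2 h).symm
      exact Nat.mem_divisors.2 ⟨hco.dvd_of_dvd_mul_left hm.1, hr⟩
  refine (Finset.card_le_card hsub).trans ((Finset.card_union_le _ _).trans ?_)
  have := Finset.card_image_le (s := r.divisors) (f := fun k => q * k)
  omega

/-- The pointwise inequality with freezing. -/
theorem ww_le (hF : Kern ε l K F) {z θ t : ℝ} {q r : ℕ} (hq : q.Prime) (hqz : z ^ θ < q)
    (hr : r ≠ 0) :
    WW F z θ t (q * r) ≤ |DD F z r ((lg z r - lg z q) / 2)| +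
      K * |t - lg z (q * r)| * r.divisors.card := by
  have h1 := ww_freeze hF (z := z) (θ := θ) (t := t) (τ := lg z (q * r)) (q * r)
  have h2 := ww_le_dd hF.nonneg hq hqz hr
  have h3 := le_abs_self (DD F z r ((lg z r - lg z q) / 2))
  have h4 : (((q * r).divisors.card : ℕ) : ℝ) ≤ 2 * r.divisors.card := by
    exact_mod_cast card_div_mul hq hr
  have h5 : K * (|t - lg z (q * r)| / 2) * (q * r).divisors.card ≤
      K * (|t - lg z (q * r)| / 2) * (2 * r.divisors.card) :=
    mul_le_mul_of_nonneg_left h4 (mul_nonneg hF.K_nonneg (by positivity))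
  linarith

end Pool.Agent.Helper18.CB
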