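import Pool.Agent.Helper18.CB.Defs

/-!
# Project CB: Riemann sums
-/

set_option autoImplicit false

open Finset Filter Topology MeasureTheory

namespace Pool.Agent.Helper18.CB

variable {ε l K : ℝ} {F : ℝ → ℝ}

theorem Kern.cont (h : Kern ε l K F) : Continuous F := by
  have hK : 0 ≤ K := by
    have := h.lip 1 0
    have h2 : 0 ≤ |F 1 - F 0| := abs_nonneg _
    rw [sub_zero, abs_one, mul_one] at this
    linarith
  have : LipschitzWith ⟨K, hK⟩ F := by
    apply LipschitzWith.of_dist_le_mul
    intro x y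
    rw [Real.dist_eq, Real.dist_eq]
    exact h.lip x y
  exact this.continuous

theorem Kern.K_nonneg (h : Kern ε l K F) : 0 ≤ K := by
  have := h.lip 1 0
  have h2 : 0 ≤ |F 1 - F 0| := abs_nonneg _
  rw [sub_zero, abs_one, mul_one] at this
  linarith

theorem Kern.le (h : Kern ε l K F) (hε : 0 < ε) (y : ℝ) : F y ≤ K * l := by
  by_cases hy : F y = 0
  · rw [hy]
    by_cases hl : 0 ≤ l
    · exact mul_nonneg h.K_nonneg hl
    · exfalso
      have h0 : ∀ x, F x = 0 := by
        intro x
        by_contra hx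
        have := h.supp x hx
        linarith
      have h1 := h.mass
      simp [h0] at h1
  · have h1 := h.supp y hy
    have h2 : F 0 = 0 := by
      by_contra hx
      have := h.supp 0 hx
      linarith
    have h3 := h.lip y 0
    rw [h2, sub_zero, sub_zero, abs_of_nonneg (h.nonneg y), abs_of_nonneg (by linarith)] at h3
    exact h3.trans (mul_le_mul_of_nonneg_left h1.2 h.K_nonneg)

theorem Kern.riem (hF : Kern ε l K F) (hε : 0 < ε) (hl : 0 < l) {N : ℕ} (hN : 1 ≤ N) :
    |2 * l / N * ∑ j ∈ range N, F (j * (2 * l / N)) - 1| ≤ K * (2 * l / N) * (2 * l) := by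
  have hN0 : (0 : ℝ) < N := by exact_mod_cast hN
  set h : ℝ := 2 * l / N with hh
  have hh0 : 0 < h := by positivity
  have hNh : N * h = 2 * l := by rw [hh]; field_simp
  have hint : ∀ a b : ℝ, IntervalIntegrable F volume a b := fun a b => hF.cont.intervalIntegrable a b
  have h1 : ∫ y, F y = ∫ y in (0 : ℝ)..(N * h), F y := by
    rw [intervalIntegral.integral_of_le (by rw [hNh]; positivity)]
    symm
    apply setIntegral_eq_integral_of_forall_compl_eq_zero
    intro x hx
    by_contra hne
    have := hF.supp x hne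
    apply hx
    rw [Set.mem_Ioc, hNh]
    constructor <;> linarith
  have h2 : ∫ y in (0 : ℝ)..(N * h), F y = ∑ j ∈ range N, ∫ y in (j * h)..((j + 1 : ℕ) * h), F y := by
    have := intervalIntegral.sum_integral_adjacent_intervals (f := F) (μ := volume)
      (a := fun j : ℕ => (j : ℝ) * h) (n := N) (fun k _ => hint _ _)
    rw [this]
    simp
  have h3 : ∀ j : ℕ, |h * F (j * h) - ∫ y in (j * h)..((j + 1 : ℕ) * h), F y| ≤ K * h * h := by
    intro j
    have e1 : h * F (j * h) = ∫ y in (j * h)..((j + 1 : ℕ) * h), F (j * h) := by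
      rw [intervalIntegral.integral_const, smul_eq_mul]
      push_cast
      ring
    rw [e1, ← intervalIntegral.integral_sub (intervalIntegrable_const) (hint _ _)]
    have e2 := intervalIntegral.norm_integral_le_of_norm_le_const (a := (j : ℝ) * h)
      (b := ((j + 1 : ℕ) : ℝ) * h) (f := fun y => F (j * h) - F y) (C := K * h) (by
        intro y hy
        have hle : (j : ℝ) * h ≤ ((j + 1 : ℕ) : ℝ) * h := by push_cast; nlinarith
        rw [Set.uIoc_of_le hle, Set.mem_Ioc] at hy
        rw [Real.norm_eq_abs]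
        refine (hF.lip _ _).trans (mul_le_mul_of_nonneg_left ?_ hF.K_nonneg)
        rw [abs_sub_comm, abs_of_nonneg (by linarith [hy.1])]
        have := hy.2
        push_cast at this
        linarith)
    rw [Real.norm_eq_abs] at e2
    refine e2.trans (le_of_eq ?_)
    push_cast
    rw [show ((j : ℝ) + 1) * h - j * h = h by ring, abs_of_pos hh0]
  rw [← hF.mass, h1, h2, Finset.mul_sum, ← Finset.sum_sub_distrib]
  refine (Finset.abs_sum_le_sum_abs _ _).trans ?_
  refine (Finset.sum_le_sum fun j _ => h3 j).trans (le_of_eq ?_)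
  rw [Finset.sum_const, Finset.card_range, nsmul_eq_mul, ← hNh]
  ring

/-- Decomposition of a sum over `m` according to `τ / 2 - |m|`. -/
theorem sum_blocks (A : ℕ → ℕ) (hA : ∀ j, A (j + 1) ≤ A j) (f : ℕ → ℝ) (N : ℕ) :
    ∑ m ∈ Ioc (A N) (A 0), f m = ∑ j ∈ range N, ∑ m ∈ Ioc (A (j + 1)) (A j), f m := by
  have hanti : ∀ j, A j ≤ A 0 := by
    intro j
    induction j with
    | zero => exact le_rfl
    | succ j ih => exact (hA j).trans ih
  induction N with
  | zero => simp
  | succ N ih =>
    have h1 := Finset.sum_Ioc_consecutive f (hA N) (hanti N)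
    rw [Finset.sum_range_succ, ← ih, ← h1]
    exact add_comm _ _

theorem Kern.blocks (hF : Kern ε l K F) (hε : 0 < ε) (hl : 0 < l) {N : ℕ} (hN : 1 ≤ N)
    {z : ℝ} (hz : 3 ≤ z) (τ : ℝ) {M : ℕ} (hM : ⌊z ^ (τ / 2)⌋₊ ≤ M) (w : ℕ → ℝ) :
    ∑ m ∈ Icc 1 M, w m * F (τ / 2 - lg z m) = ∑ j ∈ range N,
      ∑ m ∈ Ioc ⌊z ^ (τ / 2 - (j + 1 : ℕ) * (2 * l / N))⌋₊ ⌊z ^ (τ / 2 - (j : ℕ) * (2 * l / N))⌋₊,
        w m * F (τ / 2 - lg z m) := by
  have hz0 : 0 < z := by linarith
  have hL : 0 < Real.log z := Real.log_pos (by linarith)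
  have hN0 : (0 : ℝ) < N := by exact_mod_cast hN
  set h : ℝ := 2 * l / N with hh
  have hh0 : 0 < h := by positivity
  have hNh : N * h = 2 * l := by rw [hh]; field_simp
  set A : ℕ → ℕ := fun j => ⌊z ^ (τ / 2 - (j : ℕ) * h)⌋₊ with hA
  have hA1 : ∀ j, A (j + 1) ≤ A j := by
    intro j
    apply Nat.floor_le_floor
    apply Real.rpow_le_rpow_of_exponent_le (by linarith)
    push_cast
    nlinarith
  have h1 := sum_blocks A hA1 (fun m => w m * F (τ / 2 - lg z m)) N
  rw [← h1]
  symm
  apply Finset.sum_subset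
  · intro m hm
    rw [Finset.mem_Ioc] at hm
    rw [Finset.mem_Icc]
    refine ⟨by omega, hm.2.trans ?_⟩
    have : A 0 = ⌊z ^ (τ / 2)⌋₊ := by simp [hA]
    rw [this]
    exact hM
  · intro m hm hm2
    rw [Finset.mem_Icc] at hm
    have hm0 : (0 : ℝ) < m := by exact_mod_cast hm.1
    by_contra hne
    have hFne : F (τ / 2 - lg z m) ≠ 0 := by
      intro h0
      apply hne
      rw [h0, mul_zero]
    have h2 := hF.supp _ hFne
    apply hm2
    rw [Finset.mem_Ioc]
    have e1 : lg z m * Real.log z = Real.log m := by unfold lg; field_simp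
    constructor
    · rw [Nat.floor_lt (by positivity)]
      rw [← Real.log_lt_log_iff (by positivity) hm0, Real.log_rpow hz0, ← e1]
      apply mul_lt_mul_of_pos_right _ hL
      rw [hNh]
      linarith
    · apply Nat.le_floor
      rw [← Real.log_le_log_iff hm0 (by positivity), Real.log_rpow hz0, ← e1]
      apply mul_le_mul_of_nonneg_right _ hL.le
      simp only [Nat.cast_zero, zero_mul, sub_zero]
      linarith

end Pool.Agent.Helper18.CB
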