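import Pool.Agent.Helper18.CB.Point

/-!
# Project CB: one window
-/

set_option autoImplicit false

open Finset Filter Topology MeasureTheory
open scoped ArithmeticFunction.vonMangoldt
open Pool.Agent.Helper18.CA (PhiSum BVhalf)
open Pool.Agent.Helper18.BV (IsWt wt wt_nonneg)

namespace Pool.Agent.Helper18.CB

variable {ε l K : ℝ} {F : ℝ → ℝ}

/-- Bombieri-Vinogradov with coefficients. -/
theorem bv_coef {x Mz E : ℝ} {g : ℝ → ℝ} {D M : ℕ} (c : ℕ → ℝ) {Kc : ℝ}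
    (hc : ∀ m, |c m| ≤ Kc) (hM : M ≤ D) (hMz : Mz = ∑ n ∈ Icc 1 ⌊x⌋₊, Λ n * wt g x n)
    (hbv : ∑ d ∈ Icc 1 D,
        |∑ n ∈ (Icc 1 ⌊x⌋₊).filter (fun n => n ≡ 1 [MOD d]), Λ n * wt g x n -
          (1 / (d.totient : ℝ)) * Mz| ≤ E) :
    |∑ n ∈ Icc 1 ⌊x⌋₊, Λ n * wt g x n * (∑ m ∈ Icc 1 M, if n ≡ 1 [MOD m] then c m else 0) -
      Mz * ∑ m ∈ Icc 1 M, c m / m.totient| ≤ Kc * E := by
  classical
  have hKc : 0 ≤ Kc := (abs_nonneg _).trans (hc 0)
  have h1 : ∑ n ∈ Icc 1 ⌊x⌋₊, Λ n * wt g x n * (∑ m ∈ Icc 1 M, if n ≡ 1 [MOD m] then c m else 0) =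
      ∑ m ∈ Icc 1 M, c m * ∑ n ∈ (Icc 1 ⌊x⌋₊).filter (fun n => n ≡ 1 [MOD m]),
        Λ n * wt g x n := by
    simp_rw [Finset.mul_sum]
    rw [Finset.sum_comm]
    refine Finset.sum_congr rfl fun m _ => ?_
    rw [Finset.sum_filter]
    refine Finset.sum_congr rfl fun n _ => ?_
    split_ifs
    · ring
    · ring
  rw [h1, Finset.mul_sum, ← Finset.sum_sub_distrib]
  refine (Finset.abs_sum_le_sum_abs _ _).trans ?_
  have h2 : ∀ m ∈ Icc 1 M, |c m * ∑ n ∈ (Icc 1 ⌊x⌋₊).filter (fun n => n ≡ 1 [MOD m]),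
        Λ n * wt g x n - Mz * (c m / m.totient)| ≤
      Kc * |∑ n ∈ (Icc 1 ⌊x⌋₊).filter (fun n => n ≡ 1 [MOD m]), Λ n * wt g x n -
          (1 / (m.totient : ℝ)) * Mz| := by
    intro m _
    have e1 : c m * ∑ n ∈ (Icc 1 ⌊x⌋₊).filter (fun n => n ≡ 1 [MOD m]),
        Λ n * wt g x n - Mz * (c m / m.totient) =
        c m * (∑ n ∈ (Icc 1 ⌊x⌋₊).filter (fun n => n ≡ 1 [MOD m]), Λ n * wt g x n -
          (1 / (m.totient : ℝ)) * Mz) := by
      ring
    rw [e1, abs_mul]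
    exact mul_le_mul_of_nonneg_right (hc m) (abs_nonneg _)
  refine (Finset.sum_le_sum h2).trans ?_
  rw [← Finset.mul_sum]
  apply mul_le_mul_of_nonneg_left _ hKc
  refine le_trans ?_ hbv
  exact Finset.sum_le_sum_of_subset_of_nonneg (Finset.Icc_subset_Icc_right hM)
    (fun _ _ _ => abs_nonneg _)

/-- `WW (n - 1)` as a sum over `m ≤ M`. -/
theorem ww_eq (hF : Kern ε l K F) {z θ t : ℝ} (hz : 3 ≤ z) {M : ℕ} (hM : ⌊z ^ (t / 2 - ε)⌋₊ ≤ M)
    {n : ℕ} (hn : 2 ≤ n) :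
    (∑ m ∈ Icc 1 M, if n ≡ 1 [MOD m] then sg z θ m * F (t / 2 - lg z m) else 0) =
      WW F z θ t (n - 1) := by
  classical
  have hz0 : 0 < z := by linarith
  have hL : 0 < Real.log z := Real.log_pos (by linarith)
  unfold WW
  rw [← Finset.sum_filter]
  apply Finset.sum_subset_zero_on_sdiff
  · intro m hm
    rw [Finset.mem_filter] at hm
    rw [Nat.mem_divisors]
    exact ⟨(Nat.modEq_iff_dvd' (by omega)).1 hm.2.symm, by omega⟩
  · intro m hm
    rw [Finset.mem_sdiff, Nat.mem_divisors, Finset.mem_filter, Finset.mem_Icc] at hm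
    obtain ⟨⟨h1, h2⟩, h3⟩ := hm
    have hm0 : 0 < m := Nat.pos_of_dvd_of_pos h1 (by omega)
    have h4 : M < m := by
      by_contra hcon
      apply h3
      exact ⟨⟨hm0, by omega⟩, ((Nat.modEq_iff_dvd' (by omega)).2 h1).symm⟩
    have h5 : z ^ (t / 2 - ε) < m := (Nat.floor_lt (by positivity)).1 (lt_of_le_of_lt hM h4)
    have h6 : F (t / 2 - lg z m) = 0 := by
      by_contra hne
      have h7 := (hF.supp _ hne).1
      have h8 := Real.log_lt_log (by positivity) h5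
      rw [Real.log_rpow hz0] at h8
      have h9 : t / 2 - ε < lg z m := by
        unfold lg
        rw [lt_div_iff₀ hL]
        exact h8
      linarith
    rw [h6, mul_zero]
  · intro m _
    rfl

theorem abs_ww_le (hF : Kern ε l K F) (hε : 0 < ε) (z θ t : ℝ) (n : ℕ) :
    |WW F z θ t n| ≤ K * l * n.divisors.card := by
  unfold WW
  refine (Finset.abs_sum_le_sum_abs _ _).trans ?_
  have h1 : ∀ m ∈ n.divisors, |sg z θ m * F (t / 2 - lg z m)| ≤ K * l := by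
    intro m _
    rw [abs_mul, abs_sg, one_mul, abs_of_nonneg (hF.nonneg _)]
    exact hF.le hε _
  refine (Finset.sum_le_card_nsmul _ _ _ h1).trans (le_of_eq ?_)
  rw [nsmul_eq_mul]
  ring

/-- The prime powers. -/
theorem np_bound (Kc : ℝ) (hKc : 0 ≤ Kc) {w : ℝ} (hw0 : 0 < w) (hw1 : w ≤ 1 / 4) :
    ∃ X0 : ℝ, 3 ≤ X0 ∧ ∀ x : ℝ, X0 ≤ x → ∀ g : ℝ → ℝ, IsWt g → (∀ v, g v ≤ 1) →
      (∀ v, v ≤ 1 - w → g v = 0) → ∀ V : ℕ → ℝ, (∀ n, |V n| ≤ Kc * n.divisors.card) →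
      ∑ n ∈ (Icc 1 ⌊x⌋₊).filter (fun n => ¬ n.Prime), Λ n * wt g x n * V (n - 1) ≤ 1 / 2 := by
  classical
  obtain ⟨C7, hC7, hdiv⟩ := Helper89.SLE.divisor_bound (1 / 8) (by norm_num)
  have hC70 : 0 < C7 := by linarith
  have hev : ∀ᶠ x : ℝ in atTop, (4 * Kc * C7 + 1) * Real.log x ^ (2 : ℝ) ≤ x ^ (1 / 8 : ℝ) := by
    have h := isLittleO_log_rpow_rpow_atTop (2 : ℝ) (show (0 : ℝ) < 1 / 8 by norm_num)
    have h' := h.bound (by positivity : (0 : ℝ) < 1 / (4 * Kc * C7 + 1))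
    filter_upwards [h', Filter.eventually_ge_atTop (1 : ℝ)] with x hx hx1
    rw [Real.norm_of_nonneg (Real.rpow_nonneg (Real.log_nonneg hx1) _),
      Real.norm_of_nonneg (Real.rpow_nonneg (by linarith) _)] at hx
    have h0 : 0 < 4 * Kc * C7 + 1 := by positivity
    calc (4 * Kc * C7 + 1) * Real.log x ^ (2 : ℝ) ≤ (4 * Kc * C7 + 1) *
          (1 / (4 * Kc * C7 + 1) * x ^ (1 / 8 : ℝ)) := mul_le_mul_of_nonneg_left hx h0.le
      _ = x ^ (1 / 8 : ℝ) := by field_simp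
  obtain ⟨X1, hX1⟩ := Filter.eventually_atTop.1 hev
  refine ⟨max 3 X1, le_max_left _ _, ?_⟩
  intro x hx g hg hg1 hσ V hV
  have hx3 : 3 ≤ x := (le_max_left _ _).trans hx
  have hx0 : 0 < x := by linarith
  have hx1 : 1 ≤ x := by linarith
  have he := hX1 x ((le_max_right _ _).trans hx)
  rw [Real.rpow_two] at he
  have hlog : 0 < Real.log x := Real.log_pos (by linarith)
  set T := (Icc 1 ⌊x⌋₊).filter (fun n => IsPrimePow n ∧ ¬ n.Prime) with hT
  have h2 : ∑ n ∈ (Icc 1 ⌊x⌋₊).filter (fun n => ¬ n.Prime), Λ n * wt g x n * V (n - 1) =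
      ∑ n ∈ T, Λ n * wt g x n * V (n - 1) := by
    have h3 : ∑ n ∈ ((Icc 1 ⌊x⌋₊).filter (fun n => ¬ n.Prime)).filter
        (fun n => IsPrimePow n), Λ n * wt g x n * V (n - 1) =
        ∑ n ∈ (Icc 1 ⌊x⌋₊).filter (fun n => ¬ n.Prime), Λ n * wt g x n * V (n - 1) := by
      apply Finset.sum_filter_of_ne
      intro n _ hne
      by_contra hcon
      apply hne
      rw [ArithmeticFunction.vonMangoldt_eq_zero_iff.mpr hcon, zero_mul, zero_mul]
    rw [← h3, Finset.filter_filter]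
    refine Finset.sum_congr ?_ fun _ _ => rfl
    rw [hT]
    refine Finset.filter_congr fun n _ => ?_
    tauto
  rw [h2]
  have h3 : ∀ n ∈ T, Λ n * wt g x n * V (n - 1) ≤
      Real.log x * (1 / x ^ (1 - w)) * (Kc * (C7 * x ^ (1 / 8 : ℝ))) := by
    intro n hn
    rw [hT, Finset.mem_filter, Finset.mem_Icc] at hn
    have hn1 : (1 : ℝ) ≤ n := by exact_mod_cast hn.1.1
    have hnx : (n : ℝ) ≤ x := (Nat.cast_le.mpr hn.1.2).trans (Nat.floor_le (by linarith))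
    have hn2 : 2 ≤ n := by
      have := hn.2.1.two_le
      exact this
    have hL : Λ n ≤ Real.log x := by
      refine (ArithmeticFunction.vonMangoldt_le_log (n := n)).trans ?_
      exact Real.log_le_log (by linarith) hnx
    have hV1 : V (n - 1) ≤ Kc * (C7 * x ^ (1 / 8 : ℝ)) := by
      refine (le_abs_self _).trans ((hV _).trans ?_)
      apply mul_le_mul_of_nonneg_left _ hKc
      refine (hdiv (n - 1) (by omega)).trans ?_
      apply mul_le_mul_of_nonneg_left _ hC70.le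
      apply Real.rpow_le_rpow (Nat.cast_nonneg _) _ (by norm_num)
      have : ((n - 1 : ℕ) : ℝ) ≤ n := by exact_mod_cast Nat.sub_le n 1
      linarith
    have hw2 : 0 ≤ Λ n * wt g x n := mul_nonneg ArithmeticFunction.vonMangoldt_nonneg
      (wt_nonneg hg _ _)
    have hw3 : Λ n * wt g x n ≤ Real.log x * (1 / x ^ (1 - w)) :=
      mul_le_mul hL (CA.wt_le_of hg1 hσ hx3 n) (wt_nonneg hg _ _) hlog.le
    calc Λ n * wt g x n * V (n - 1) ≤ Λ n * wt g x n * (Kc * (C7 * x ^ (1 / 8 : ℝ))) :=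
          mul_le_mul_of_nonneg_left hV1 hw2
      _ ≤ _ := mul_le_mul_of_nonneg_right hw3 (by positivity)
  refine (Finset.sum_le_card_nsmul _ _ _ h3).trans ?_
  rw [nsmul_eq_mul]
  have hTc : (T.card : ℝ) ≤ x ^ (1 / 2 : ℝ) * (2 * Real.log x) := by
    have h4 : (T.card : ℝ) ≤ (Nat.sqrt ⌊x⌋₊ : ℝ) * (Nat.log 2 ⌊x⌋₊ : ℕ) := by
      exact_mod_cast CA.card_nonprime ⌊x⌋₊
    have h5 : ((Nat.sqrt ⌊x⌋₊ : ℕ) : ℝ) ≤ x ^ (1 / 2 : ℝ) := by
      rw [← Real.sqrt_eq_rpow]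
      refine (Real.nat_sqrt_le_real_sqrt).trans (Real.sqrt_le_sqrt (Nat.floor_le hx0.le))
    have h6 := Helper51.BV.natlog_le hx3
    exact h4.trans (mul_le_mul h5 h6 (Nat.cast_nonneg _) (by positivity))
  have hxw : 0 < x ^ (1 - w) := by positivity
  have hmain : 4 * Kc * C7 * Real.log x ^ 2 * (x ^ (1 / 2 : ℝ) * x ^ (1 / 8 : ℝ)) ≤
      x ^ (1 - w) := by
    have h7 : 4 * Kc * C7 * Real.log x ^ 2 ≤ x ^ (1 / 8 : ℝ) := by
      have : 0 ≤ Real.log x ^ 2 := by positivity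
      nlinarith
    calc 4 * Kc * C7 * Real.log x ^ 2 * (x ^ (1 / 2 : ℝ) * x ^ (1 / 8 : ℝ)) ≤
          x ^ (1 / 8 : ℝ) * (x ^ (1 / 2 : ℝ) * x ^ (1 / 8 : ℝ)) :=
          mul_le_mul_of_nonneg_right h7 (by positivity)
      _ = x ^ (3 / 4 : ℝ) := by
          rw [← Real.rpow_add hx0, ← Real.rpow_add hx0]
          norm_num
      _ ≤ x ^ (1 - w) := Real.rpow_le_rpow_of_exponent_le hx1 (by linarith)
  calc (T.card : ℝ) * (Real.log x * (1 / x ^ (1 - w)) * (Kc * (C7 * x ^ (1 / 8 : ℝ)))) ≤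
      (x ^ (1 / 2 : ℝ) * (2 * Real.log x)) *
        (Real.log x * (1 / x ^ (1 - w)) * (Kc * (C7 * x ^ (1 / 8 : ℝ)))) :=
        mul_le_mul_of_nonneg_right hTc (by positivity)
    _ = (4 * Kc * C7 * Real.log x ^ 2 * (x ^ (1 / 2 : ℝ) * x ^ (1 / 8 : ℝ))) /
          x ^ (1 - w) / 2 := by ring
    _ ≤ 1 / 2 := by
        apply div_le_div_of_nonneg_right _ (by norm_num)
        rw [div_le_one hxw]
        exact hmain

/-- The mass in one window. -/
theorem win {c0 C : ℝ} (hΦ : PhiSum c0 C) (hBV : BVhalf) {θ : ℝ} (hθ0 : 0 < θ) (hθ : θ < 1 / 2)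
    (hlam : Real.log (1 / (2 * θ)) < 1 / 2) (hF : Kern ε l K F) (hε : 0 < ε) (hε1 : ε ≤ 1 / 4)
    (hl : 0 < l) (hl1 : l ≤ 1 / 10) {ρ : ℝ} (hρ : 0 < ρ)
    (hρ1 : ρ ≤ 1 - 2 * Real.log (1 / (2 * θ))) {g : ℝ → ℝ} (hg : IsWt g) (hg1 : ∀ v, g v ≤ 1)
    {w : ℝ} (hw0 : 0 < w) (hw : w ≤ ε) (hσ : ∀ v, v ≤ 1 - w → g v = 0) {X3 : ℝ}
    (hmass : ∀ x : ℝ, X3 ≤ x → 1 / 2 * w * Real.log x ≤ ∑ n ∈ Icc 1 ⌊x⌋₊, Λ n * wt g x n) :
    ∃ z0 : ℝ, 3 ≤ z0 ∧ ∀ z : ℝ, z0 ≤ z → ∀ t : ℝ, 9 / 10 ≤ t → t ≤ 1 →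
      (1 / 2 * w * (t * Real.log z)) *
        (c0 * Real.log z * (1 - 2 * Real.log (1 / (2 * θ)) - ρ)) - 1 ≤
      ∑ n ∈ (Icc 1 ⌊z ^ t⌋₊).filter (fun n => n.Prime),
        Λ n * wt g (z ^ t) n * WW F z θ t (n - 1) := by
  classical
  have hK := hF.K_nonneg
  obtain ⟨z1, hz1, hm⟩ := mass_lower hΦ hθ0 hθ hlam hF hε hl hl1 hρ
  obtain ⟨C4, X4, hC4, hX4, hbv⟩ := hBV ε hε (by linarith) g hg
    (fun v hv => hσ v (by linarith)) 1 one_pos
  obtain ⟨X5, hX5, hnp⟩ := np_bound (K * l) (by positivity) hw0 (by linarith)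
  set XX : ℝ := max (max X3 X4) (max X5 (Real.exp (2 * (K * l * C4) + 1))) with hXX
  have hXX3 : 3 ≤ XX := hX4.trans ((le_max_right _ _).trans (le_max_left _ _))
  refine ⟨max z1 (XX ^ (10 / 9 : ℝ)), hz1.trans (le_max_left _ _), ?_⟩
  intro z hz t ht0 ht1
  have hzz1 : z1 ≤ z := (le_max_left _ _).trans hz
  have hzX : XX ^ (10 / 9 : ℝ) ≤ z := (le_max_right _ _).trans hz
  have hz3 : 3 ≤ z := hz1.trans hzz1
  have hz0 : 0 < z := by linarith
  have hz1' : 1 ≤ z := by linarith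
  set x := z ^ t with hx
  have hxX : XX ≤ x := by
    calc XX = (XX ^ (10 / 9 : ℝ)) ^ (9 / 10 : ℝ) := by
          rw [← Real.rpow_mul (by linarith)]
          norm_num
      _ ≤ z ^ (9 / 10 : ℝ) := Real.rpow_le_rpow (by positivity) hzX (by norm_num)
      _ ≤ x := Real.rpow_le_rpow_of_exponent_le hz1' ht0
  have hxX3 : X3 ≤ x := ((le_max_left _ _).trans (le_max_left _ _)).trans hxX
  have hxX4 : X4 ≤ x := ((le_max_right _ _).trans (le_max_left _ _)).trans hxX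
  have hxX5 : X5 ≤ x := ((le_max_left _ _).trans (le_max_right _ _)).trans hxX
  have hxE : Real.exp (2 * (K * l * C4) + 1) ≤ x :=
    ((le_max_right _ _).trans (le_max_right _ _)).trans hxX
  have hx3 : 3 ≤ x := hXX3.trans hxX
  have hx0 : 0 < x := by linarith
  have hlogx : Real.log x = t * Real.log z := by rw [hx, Real.log_rpow hz0]
  have hLx : 2 * (K * l * C4) + 1 ≤ Real.log x := (Real.le_log_iff_exp_le hx0).2 hxE
  have hKlC : 0 ≤ K * l * C4 := by positivity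
  have hLx0 : 0 < Real.log x := by linarith
  set Mz : ℝ := ∑ n ∈ Icc 1 ⌊x⌋₊, Λ n * wt g x n with hMz
  have hMz1 : 1 / 2 * w * Real.log x ≤ Mz := hmass x hxX3
  set M := ⌊x ^ (1 / 2 - ε)⌋₊ with hM
  have hMle : ⌊z ^ (t / 2 - ε)⌋₊ ≤ M := by
    apply Nat.floor_le_floor
    rw [hx, ← Real.rpow_mul hz0.le]
    apply Real.rpow_le_rpow_of_exponent_le hz1'
    nlinarith
  -- Bombieri-Vinogradov
  have hbvx := hbv x hxX4 (fun _ => 1) (fun d => Nat.coprime_one_left d)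
  rw [Real.rpow_one, ← hM, ← hMz] at hbvx
  have h1 := bv_coef (x := x) (g := g) (fun m => sg z θ m * F (t / 2 - lg z m)) (Kc := K * l)
    (by
      intro m
      rw [abs_mul, abs_sg, one_mul, abs_of_nonneg (hF.nonneg _)]
      exact hF.le hε _) (le_refl M) hMz hbvx
  have h2 : K * l * (C4 / Real.log x) ≤ 1 / 2 := by
    rw [← mul_div_assoc, div_le_iff₀ hLx0]
    linarith
  -- the main term
  have h3 : c0 * Real.log z * (1 - 2 * Real.log (1 / (2 * θ)) - ρ) ≤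
      ∑ m ∈ Icc 1 M, sg z θ m * F (t / 2 - lg z m) / m.totient := by
    have h4 := hm z hzz1 t ht0 ht1 (max M ⌊z ^ (t / 2)⌋₊) (le_max_right _ _)
    refine h4.trans (le_of_eq ?_)
    symm
    have e1 : ∀ m : ℕ, sg z θ m * F (t / 2 - lg z m) / m.totient =
        (sg z θ m / m.totient) * F (t / 2 - lg z m) := fun m => by ring
    simp_rw [e1]
    apply Finset.sum_subset (Finset.Icc_subset_Icc_right (le_max_left _ _))
    intro m hm1 hm2
    rw [Finset.mem_Icc] at hm1 hm2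
    have h5 : M < m := by omega
    have h6 : z ^ (t / 2 - ε) < m := (Nat.floor_lt (by positivity)).1 (lt_of_le_of_lt hMle h5)
    have h7 : F (t / 2 - lg z m) = 0 := by
      by_contra hne
      have h8 := (hF.supp _ hne).1
      have h9 := Real.log_lt_log (by positivity) h6
      rw [Real.log_rpow hz0] at h9
      have hL : 0 < Real.log z := Real.log_pos (by linarith)
      have h10 : t / 2 - ε < lg z m := by
        unfold lg
        rw [lt_div_iff₀ hL]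
        exact h9
      linarith
    rw [h7, mul_zero]
  have h4 : 0 ≤ c0 * Real.log z * (1 - 2 * Real.log (1 / (2 * θ)) - ρ) := by
    have h5 : 0 < Real.log z := Real.log_pos (by linarith)
    have h6 := hΦ.1
    have h7 : 0 ≤ 1 - 2 * Real.log (1 / (2 * θ)) - ρ := by linarith
    positivity
  have h5 : (1 / 2 * w * (t * Real.log z)) *
        (c0 * Real.log z * (1 - 2 * Real.log (1 / (2 * θ)) - ρ)) ≤
      Mz * ∑ m ∈ Icc 1 M, sg z θ m * F (t / 2 - lg z m) / m.totient := by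
    rw [← hlogx]
    have h6 : 0 ≤ Mz := le_trans (by positivity) hMz1
    exact (mul_le_mul_of_nonneg_right hMz1 h4).trans (mul_le_mul_of_nonneg_left h3 h6)
  -- the sum over `n`
  have h6 : ∑ n ∈ Icc 1 ⌊x⌋₊, Λ n * wt g x n *
      (∑ m ∈ Icc 1 M, if n ≡ 1 [MOD m] then sg z θ m * F (t / 2 - lg z m) else 0) =
      ∑ n ∈ Icc 1 ⌊x⌋₊, Λ n * wt g x n * WW F z θ t (n - 1) := by
    refine Finset.sum_congr rfl fun n hn => ?_
    rw [Finset.mem_Icc] at hn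
    rcases Nat.lt_or_ge n 2 with h7 | h7
    · have : n = 1 := by omega
      subst this
      simp
    · rw [ww_eq hF hz3 hMle h7]
  rw [h6] at h1
  have h7 := (abs_le.1 h1).1
  have h8 := hnp x hxX5 g hg hg1 hσ (fun n => WW F z θ t n) (abs_ww_le hF hε z θ t)
  have h9 := Finset.sum_filter_add_sum_filter_not (Icc 1 ⌊x⌋₊) (fun n => n.Prime)
    (fun n => Λ n * wt g x n * WW F z θ t (n - 1))
  linarith

end Pool.Agent.Helper18.CB
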